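import Pool.Agent.J4H24.NS.Cnf

/-!
# The lower bound
-/

namespace Pool.Agent.J4H24.NS

open Finset

/-- the number of clauses of bounded width -/
lemma card_small {T : Type*} [Fintype T] [DecidableEq T] (F : Finset (Finset T)) (m : ℕ)
    (hF : ∀ C ∈ F, C.card ≤ m) : F.card ≤ (Fintype.card T + 1) ^ m := by
  have h1 : F ⊆ (univ : Finset (Fin m → Option T)).image
      (fun f => univ.filter fun t => ∃ i, f i = some t) := by
    intro C hC
    refine Finset.mem_image.mpr ⟨fun i => C.toList[(i : ℕ)]?, mem_univ _, ?_⟩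
    ext t
    rw [Finset.mem_filter, ← Finset.mem_toList (s := C), List.mem_iff_getElem?]
    constructor
    · rintro ⟨-, i, hi⟩
      exact ⟨i, hi⟩
    · rintro ⟨i, hi⟩
      have h2 : i < C.toList.length := by
        by_contra hc
        rw [List.getElem?_eq_none (by omega)] at hi
        exact absurd hi (by simp)
      rw [Finset.length_toList] at h2
      exact ⟨mem_univ _, ⟨i, h2.trans_le (hF C hC)⟩, hi⟩
  refine (Finset.card_le_card h1).trans (Finset.card_image_le.trans ?_)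
  rw [Finset.card_univ, Fintype.card_fun, Fintype.card_option, Fintype.card_fin]

lemma card_fin_le {n : ℕ} (F : Finset (Finset (Fin n × Bool))) (hF : ∀ C ∈ F, C.card ≤ 36) :
    F.card ≤ (2 * n + 1) ^ 36 := by
  have h3 := card_small F 36 hF
  rw [Fintype.card_prod, Fintype.card_fin, Fintype.card_bool] at h3
  rwa [mul_comm 2 n]

/-- the placement of the bits -/
lemma exists_place {h Q M : ℕ} {V : Type*} [DecidableEq V] (e : Vr h Q M → V)
    {A B : Finset V} (hAB : Disjoint A B) (hA : ∀ a ∈ A, ∃ p, e (Sum.inr p) = a)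
    (hB : ∀ a ∈ B, ∃ p, e (Sum.inr p) = a) (hcA : Fintype.card (Ver h) * Q ≤ A.card)
    (hcB : Fintype.card (Ver h) * Q ≤ B.card) :
    ∃ π : Lb h Q → Fin (M + 1), Function.Injective π ∧
      (∀ v i, e (Sum.inr (π (v, false, i))) ∈ A) ∧ ∀ v i, e (Sum.inr (π (v, true, i))) ∈ B := by
  obtain ⟨f1⟩ : Nonempty ((Ver h × Fin Q) ↪ A) :=
    Function.Embedding.nonempty_of_card_le (by
      rw [Fintype.card_coe, Fintype.card_prod, Fintype.card_fin]
      exact hcA)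
  obtain ⟨f2⟩ : Nonempty ((Ver h × Fin Q) ↪ B) :=
    Function.Embedding.nonempty_of_card_le (by
      rw [Fintype.card_coe, Fintype.card_prod, Fintype.card_fin]
      exact hcB)
  choose p1 hp1 using hA
  choose p2 hp2 using hB
  have h1 : ∀ v i, e (Sum.inr (p1 (f1 (v, i)) (f1 (v, i)).2)) = f1 (v, i) := fun v i => hp1 _ _
  have h2 : ∀ v i, e (Sum.inr (p2 (f2 (v, i)) (f2 (v, i)).2)) = f2 (v, i) := fun v i => hp2 _ _
  refine ⟨fun l => bif l.2.1 then p2 (f2 (l.1, l.2.2)) (f2 (l.1, l.2.2)).2 else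
    p1 (f1 (l.1, l.2.2)) (f1 (l.1, l.2.2)).2, ?_, ?_, ?_⟩
  · rintro ⟨v, s, i⟩ ⟨v', s', i'⟩ hl
    have hl2 := congrArg (fun p => e (Sum.inr p)) hl
    cases s <;> cases s'
    · simp only [cond_false] at hl2
      rw [h1, h1] at hl2
      have h3 := f1.injective (Subtype.ext hl2)
      rw [Prod.mk.injEq] at h3
      rw [h3.1, h3.2]
    · simp only [cond_false, cond_true] at hl2
      rw [h1, h2] at hl2
      exact absurd (hl2 ▸ (f1 (v, i)).2) (Finset.disjoint_right.mp hAB (f2 (v', i')).2)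
    · simp only [cond_false, cond_true] at hl2
      rw [h1, h2] at hl2
      exact absurd (hl2 ▸ (f2 (v, i)).2) (Finset.disjoint_left.mp hAB (f1 (v', i')).2)
    · simp only [cond_true] at hl2
      rw [h2, h2] at hl2
      have h3 := f2.injective (Subtype.ext hl2)
      rw [Prod.mk.injEq] at h3
      rw [h3.1, h3.2]
  · intro v i
    show e (Sum.inr (p1 (f1 (v, i)) (f1 (v, i)).2)) ∈ A
    rw [h1]
    exact (f1 (v, i)).2
  · intro v i
    show e (Sum.inr (p2 (f2 (v, i)) (f2 (v, i)).2)) ∈ B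
    rw [h2]
    exact (f2 (v, i)).2

theorem lower {h M n : ℕ} (e : Vr h (2 * Fintype.card (Ver h)) M → Fin n)
    (he : Function.Injective e) {K : Type*} [Field K] {k ℓ W : ℕ}
    (hM : 2 * (2 ^ (2 * k * ℓ) * (Fintype.card (Ver h) * (2 * Fintype.card (Ver h)))) ≤ M + 1)
    (S : Fin ℓ → List (Fin n)) (hS : ∀ j v, (S j).count v ≤ k)
    (g : Finset (Fin n × Bool) → Fin ℓ → (Fin n → Bool) → K)
    (hg : ∀ C ∈ frm e, ∀ j, OBP K W (S j) (g C j))
    (hsum : ∀ x, ∑ C ∈ frm e with Fals C x, ∑ j, g C j x = 1) :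
    2 ^ (h + 1) ≤ 3 * ((2 * n + 1) ^ 36 * (ℓ * W ^ (2 * k + 3))) := by
  obtain ⟨m, hm⟩ : ∃ m, m = 2 ^ (2 * k * ℓ) *
    (Fintype.card (Ver h) * (2 * Fintype.card (Ver h))) := ⟨_, rfl⟩
  rw [← hm] at hM
  obtain ⟨a, ha⟩ : ∃ a : Fin m → Fin (M + 1), ∀ i, (a i : ℕ) = i :=
    ⟨fun i => ⟨i, by have := i.2; omega⟩, fun i => rfl⟩
  obtain ⟨b, hb⟩ : ∃ b : Fin m → Fin (M + 1), ∀ i, (b i : ℕ) = m + i :=
    ⟨fun i => ⟨m + i, by have := i.2; omega⟩, fun i => rfl⟩
  have hea : ∀ p q, e (Sum.inr p) = e (Sum.inr q) → (p : ℕ) = q := fun p q hpq =>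
    congrArg Fin.val (Sum.inr_injective (he hpq))
  have hAB : Disjoint (univ.image fun i => e (Sum.inr (a i)))
      (univ.image fun i => e (Sum.inr (b i))) := by
    rw [Finset.disjoint_left]
    intro v hv hv2
    obtain ⟨i, -, rfl⟩ := Finset.mem_image.mp hv
    obtain ⟨j, -, hj⟩ := Finset.mem_image.mp hv2
    have h1 := hea _ _ hj
    rw [ha, hb] at h1
    have := i.2
    omega
  have hcA : (univ.image fun i => e (Sum.inr (a i))).card = m := by
    rw [Finset.card_image_of_injective, Finset.card_univ, Fintype.card_fin]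
    intro i j hij
    have h1 := hea _ _ hij
    rw [ha, ha] at h1
    exact Fin.ext h1
  have hcB : (univ.image fun i => e (Sum.inr (b i))).card = m := by
    rw [Finset.card_image_of_injective, Finset.card_univ, Fintype.card_fin]
    intro i j hij
    have h1 := hea _ _ hij
    rw [hb, hb] at h1
    exact Fin.ext (by omega)
  obtain ⟨A, hA, B, hB, hmA, hmB, hblk⟩ := exists_blks k
    (Fintype.card (Ver h) * (2 * Fintype.card (Ver h))) (List.ofFn S) _ _ hAB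
    (by
      intro s hs v
      obtain ⟨j, rfl⟩ := (List.mem_ofFn' S s).mp hs
      exact hS j v)
    (by rw [List.length_ofFn, hcA, hm]) (by rw [List.length_ofFn, hcB, hm])
  obtain ⟨π, hπ, hπA, hπB⟩ := exists_place e
    (Finset.disjoint_of_subset_left hA (Finset.disjoint_of_subset_right hB hAB))
    (by
      intro v hv
      obtain ⟨i, -, hi⟩ := Finset.mem_image.mp (hA hv)
      exact ⟨_, hi⟩)
    (by
      intro v hv
      obtain ⟨i, -, hi⟩ := Finset.mem_image.mp (hB hv)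
      exact ⟨_, hi⟩) hmA hmB
  have h1 := frm_lower e rfl he hπ hπA hπB (ℓ * W ^ (2 * k + 3))
    (fun C x => ∑ j, g C j x) (by
      intro Z hZA hZB C hC
      have h2 := Rk.sum (univ : Finset (Fin ℓ)) (r := fun _ => W ^ (2 * k + 1 + 2))
        (f := fun j x y => g C j (Z x y)) (fun j _ =>
          rk_obp Z hZA hZB (hblk (S j) ((List.mem_ofFn' S _).mpr ⟨j, rfl⟩)) (hg C hC j))
      rw [Finset.sum_const, Finset.card_univ, Fintype.card_fin, smul_eq_mul] at h2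
      exact h2) (fun x _ => hsum x)
  exact h1.trans (Nat.mul_le_mul_left _ (Nat.mul_le_mul_right _
    (card_fin_le _ fun C hC => frm_width e hC)))

lemma exists_emb {h M n : ℕ} (hn : (4 * Fintype.card (Ver h) ^ 2 + 1) * (M + 1) ≤ n) :
    ∃ e : Vr h (2 * Fintype.card (Ver h)) M → Fin n, Function.Injective e := by
  have h1 : Fintype.card (Vr h (2 * Fintype.card (Ver h)) M) ≤ Fintype.card (Fin n) := by
    rw [Fintype.card_fin n]
    refine le_trans ?_ hn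
    simp only [Fintype.card_sum, Fintype.card_prod, Fintype.card_bool, Fintype.card_fin]
    nlinarith [Nat.zero_le (((h + 1) * (h + 1)) ^ 2)]
  obtain ⟨e⟩ := Function.Embedding.nonempty_of_card_le h1
  exact ⟨e, e.injective⟩

/-- the arithmetic -/
lemma arith : ∃ N0 : ℕ, ∀ n ≥ N0, ∃ H : ℕ, 1 ≤ H ∧ (20 * H ^ 8) ^ 20 ≤ n ^ 19 ∧ 1 ≤ n ∧
    ∀ k ℓ W : ℕ, 1 ≤ ℓ → 2 ^ (40 * ((k + 1) * ℓ)) ≤ n →
      2 ^ H ≤ 3 * ((2 * n + 1) ^ 36 * (ℓ * W ^ (2 * k + 3))) →
      (2 : ℝ) ^ ((n : ℝ) ^ (1 / 9 : ℝ)) ≤ W := by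
  have e1 : ∀ᶠ x : ℝ in Filter.atTop, 20 ^ 20 ≤ x ^ (3 / 25 : ℝ) :=
    (tendsto_rpow_atTop (by norm_num)).eventually_ge_atTop _
  have e2 : ∀ᶠ x : ℝ in Filter.atTop, 76150 ≤ x ^ (59 / 500 - (1 / 9 + 1 / 1000) : ℝ) :=
    (tendsto_rpow_atTop (by norm_num)).eventually_ge_atTop _
  have e3 : ∀ᶠ x : ℝ in Filter.atTop, (1 : ℝ) ≤ x := Filter.eventually_ge_atTop 1
  obtain ⟨x0, hx0⟩ := Filter.eventually_atTop.mp (e1.and (e2.and e3))
  refine ⟨⌈x0⌉₊, fun n hn => ?_⟩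
  obtain ⟨h1, h2, h3⟩ := hx0 n (Nat.ceil_le.mp hn)
  have hn0 : (0 : ℝ) < n := by linarith
  have hfl : (⌊(n : ℝ) ^ (59 / 500 : ℝ)⌋₊ : ℝ) ≤ (n : ℝ) ^ (59 / 500 : ℝ) :=
    Nat.floor_le (by positivity)
  have hfl2 : (n : ℝ) ^ (59 / 500 : ℝ) < ⌊(n : ℝ) ^ (59 / 500 : ℝ)⌋₊ + 1 := Nat.lt_floor_add_one _
  have hb1 : 1 ≤ (n : ℝ) ^ (59 / 500 : ℝ) := Real.one_le_rpow h3 (by norm_num)
  refine ⟨⌊(n : ℝ) ^ (59 / 500 : ℝ)⌋₊, ?_, ?_, by exact_mod_cast h3, ?_⟩
  · exact (Nat.one_le_floor_iff _).mpr hb1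
  · have h4 : ((20 * (⌊(n : ℝ) ^ (59 / 500 : ℝ)⌋₊ : ℝ) ^ 8) ^ 20) ≤ (n : ℝ) ^ 19 := by
      calc ((20 * (⌊(n : ℝ) ^ (59 / 500 : ℝ)⌋₊ : ℝ) ^ 8) ^ 20)
          ≤ (20 * ((n : ℝ) ^ (59 / 500 : ℝ)) ^ 8) ^ 20 := by gcongr
        _ = 20 ^ 20 * (n : ℝ) ^ (472 / 25 : ℝ) := by
            rw [mul_pow, ← pow_mul, ← Real.rpow_natCast ((n : ℝ) ^ (59 / 500 : ℝ)),
              ← Real.rpow_mul hn0.le]
            norm_num
        _ ≤ (n : ℝ) ^ (3 / 25 : ℝ) * (n : ℝ) ^ (472 / 25 : ℝ) := by gcongr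
        _ = (n : ℝ) ^ (19 : ℝ) := by
            rw [← Real.rpow_add hn0]
            norm_num
        _ = (n : ℝ) ^ 19 := by norm_cast
    exact_mod_cast h4
  · intro k ℓ W hℓ hkl hmain
    by_contra hW
    rw [not_le] at hW
    have hln : ℓ ≤ n := by
      refine le_trans ?_ hkl
      refine Nat.lt_two_pow_self.le.trans (Nat.pow_le_pow_right (by norm_num) ?_)
      nlinarith [Nat.zero_le (k * ℓ)]
    have hk : 2 ^ (2 * k + 3) ≤ n := by
      refine le_trans (Nat.pow_le_pow_right (by norm_num) ?_) hkl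
      nlinarith [Nat.zero_le (k * ℓ), Nat.mul_le_mul_left k hℓ]
    have hkR : ((2 * k + 3 : ℕ) : ℝ) * Real.log 2 ≤ Real.log n := by
      rw [← Real.log_pow]
      refine Real.log_le_log (by positivity) ?_
      exact_mod_cast hk
    set b := (n : ℝ) ^ (1 / 9 : ℝ) with hb
    have hb0 : 0 ≤ b := by positivity
    set H := ⌊(n : ℝ) ^ (59 / 500 : ℝ)⌋₊ with hH
    have h5 : (2 : ℝ) ^ H ≤ 3 * ((3 * n) ^ 36 * (n * ((2 : ℝ) ^ b) ^ (2 * k + 3))) := by
      have h6 : ((2 : ℝ)) ^ H ≤ 3 * ((2 * n + 1) ^ 36 * (ℓ * (W : ℝ) ^ (2 * k + 3))) := by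
        exact_mod_cast hmain
      refine h6.trans ?_
      have h7 : (ℓ : ℝ) ≤ n := by exact_mod_cast hln
      have h8 : (2 * n + 1 : ℝ) ≤ 3 * n := by linarith
      gcongr
    have hlog2 : (1 / 2 : ℝ) ≤ Real.log 2 := by
      have := Real.log_two_gt_d9
      linarith
    have hlog3 : Real.log 3 ≤ 2 := by
      have := Real.log_le_sub_one_of_pos (show (0 : ℝ) < 3 by norm_num)
      linarith
    have h9 : (H : ℝ) * Real.log 2 ≤ Real.log 3 + (36 * (Real.log 3 + Real.log n) +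
        (Real.log n + (2 * k + 3 : ℕ) * (b * Real.log 2))) := by
      have h10 := Real.log_le_log (by positivity) h5
      have hp : (0 : ℝ) < (2 : ℝ) ^ b := by positivity
      rw [Real.log_pow, Real.log_mul (by norm_num) (by positivity),
        Real.log_mul (by positivity) (by positivity), Real.log_pow,
        Real.log_mul (by norm_num) (by positivity), Real.log_mul (by positivity) (by positivity),
        Real.log_pow, Real.log_rpow (by norm_num)] at h10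
      exact_mod_cast h10
    have hlogn : Real.log n ≤ 1000 * (n : ℝ) ^ (1 / 1000 : ℝ) := by
      have := Real.log_le_rpow_div hn0.le (show (0 : ℝ) < 1 / 1000 by norm_num)
      linarith
    set c := (n : ℝ) ^ (1 / 9 + 1 / 1000 : ℝ) with hc
    have hc1 : 1 ≤ c := Real.one_le_rpow h3 (by norm_num)
    have hc2 : (n : ℝ) ^ (1 / 1000 : ℝ) ≤ c := Real.rpow_le_rpow_of_exponent_le h3 (by norm_num)
    have hc3 : b * (n : ℝ) ^ (1 / 1000 : ℝ) = c := by
      rw [hb, hc, ← Real.rpow_add hn0]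
    have h11 : ((2 * k + 3 : ℕ) : ℝ) * (b * Real.log 2) ≤ 1000 * c := by
      calc ((2 * k + 3 : ℕ) : ℝ) * (b * Real.log 2) = b * (((2 * k + 3 : ℕ) : ℝ) * Real.log 2) := by
            ring
        _ ≤ b * (1000 * (n : ℝ) ^ (1 / 1000 : ℝ)) := by
            refine mul_le_mul_of_nonneg_left (hkR.trans hlogn) hb0
        _ = 1000 * c := by rw [← hc3]; ring
    have h12 : (n : ℝ) ^ (59 / 500 : ℝ) = (n : ℝ) ^ (59 / 500 - (1 / 9 + 1 / 1000) : ℝ) * c := by
      rw [hc, ← Real.rpow_add hn0]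
      norm_num
    have h13 : 76150 * c ≤ (n : ℝ) ^ (59 / 500 : ℝ) := by
      rw [h12]
      exact mul_le_mul_of_nonneg_right h2 (by linarith)
    have h14 : (H : ℝ) / 2 ≤ H * Real.log 2 := by
      have : (0 : ℝ) ≤ H := by positivity
      nlinarith
    nlinarith

/-- the main theorem -/
theorem main : ∃ N0 : ℕ, ∀ n ≥ N0, ∃ F : Finset (Finset (Fin n × Bool)),
    (∀ C ∈ F, C.card ≤ 36) ∧ F.card ≤ (2 * n + 1) ^ 36 ∧ (∀ x, ∃ C ∈ F, Fals C x) ∧
    ∀ (K : Type*) [Field K] (k ℓ W : ℕ), 2 ^ (40 * ((k + 1) * ℓ)) ≤ n →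
      ∀ S : Fin ℓ → List (Fin n), (∀ j v, (S j).count v ≤ k) →
      ∀ g : Finset (Fin n × Bool) → Fin ℓ → (Fin n → Bool) → K,
        (∀ C ∈ F, ∀ j, OBP K W (S j) (g C j)) →
        (∀ x, ∑ C ∈ F with Fals C x, ∑ j, g C j x = 1) →
        (2 : ℝ) ^ ((n : ℝ) ^ (1 / 9 : ℝ)) ≤ W := by
  obtain ⟨N0, hN0⟩ := arith
  refine ⟨N0, fun n hn => ?_⟩
  obtain ⟨H, hH1, hH2, hn1, hH3⟩ := hN0 n hn
  obtain ⟨h, rfl⟩ : ∃ h, H = h + 1 := ⟨H - 1, by omega⟩
  have hcard : Fintype.card (Ver h) = (h + 1) ^ 2 := by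
    rw [Fintype.card_prod, Fintype.card_fin]
    ring
  have hD : 4 * Fintype.card (Ver h) ^ 2 + 1 ≤ 5 * (h + 1) ^ 4 := by
    rw [hcard]
    have : 1 ≤ (h + 1) ^ 4 := Nat.one_le_pow _ _ (by omega)
    nlinarith
  have hsize : ∀ t : ℕ, t ^ 20 ≤ n → t * (20 * (h + 1) ^ 8) ≤ n := by
    intro t ht
    refine (Nat.pow_le_pow_iff_left (n := 20) (by norm_num)).mp ?_
    rw [mul_pow]
    calc t ^ 20 * (20 * (h + 1) ^ 8) ^ 20 ≤ n * n ^ 19 := Nat.mul_le_mul ht hH2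
      _ = n ^ 20 := by ring
  have hpos : 0 < 4 * Fintype.card (Ver h) ^ 2 + 1 := by omega
  have h20 : (20 * (h + 1) ^ 8) ≤ n := by
    have := hsize 1 (by simpa using hn1)
    omega
  have hq1 : 1 ≤ n / (4 * Fintype.card (Ver h) ^ 2 + 1) := by
    rw [Nat.le_div_iff_mul_le hpos, one_mul]
    refine hD.trans (le_trans ?_ h20)
    have : (h + 1) ^ 4 ≤ (h + 1) ^ 8 := Nat.pow_le_pow_right (by omega) (by norm_num)
    omega
  obtain ⟨M, hM⟩ : ∃ M, n / (4 * Fintype.card (Ver h) ^ 2 + 1) = M + 1 :=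
    ⟨n / (4 * Fintype.card (Ver h) ^ 2 + 1) - 1, by omega⟩
  obtain ⟨e, he⟩ := exists_emb (h := h) (M := M) (n := n) (by
    rw [← hM]
    exact Nat.mul_div_le _ _)
  refine ⟨frm e, fun C hC => frm_width e hC, card_fin_le _ fun C hC => frm_width e hC,
    frm_unsat e, ?_⟩
  · intro K _ k ℓ W hkl S hS g hg hsum
    rcases Nat.eq_zero_or_pos ℓ with h0 | hℓ
    · subst h0
      have h1 := hsum (fun _ => false)
      simp at h1
    · refine hH3 k ℓ W hℓ hkl (lower e he ?_ S hS g hg hsum)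
      rw [← hM, Nat.le_div_iff_mul_le hpos]
      have h1 : (2 ^ (2 * k * ℓ)) ^ 20 ≤ n := by
        rw [← pow_mul]
        refine le_trans (Nat.pow_le_pow_right (by norm_num) ?_) hkl
        nlinarith
      have h2 := hsize _ h1
      refine le_trans ?_ h2
      calc 2 * (2 ^ (2 * k * ℓ) * (Fintype.card (Ver h) * (2 * Fintype.card (Ver h)))) *
            (4 * Fintype.card (Ver h) ^ 2 + 1)
          ≤ 2 * (2 ^ (2 * k * ℓ) * (Fintype.card (Ver h) * (2 * Fintype.card (Ver h)))) *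
            (5 * (h + 1) ^ 4) := Nat.mul_le_mul_left _ hD
        _ = 2 ^ (2 * k * ℓ) * (20 * (h + 1) ^ 8) := by
            rw [hcard]
            ring

end Pool.Agent.J4H24.NS
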