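import Mathlib

/-!
# Functions of two arguments as short sums of products
-/

namespace Pool.Agent.J4H24.NS

open Finset

variable {K X Y : Type*} [Field K]

/-- `f` is a sum of at most `r` products of a function of `x` and a function of `y` -/
def Rk (r : ℕ) (f : X → Y → K) : Prop :=
  ∃ (n : ℕ) (a : Fin n → X → K) (b : Fin n → Y → K), n ≤ r ∧ ∀ x y, f x y = ∑ i, a i x * b i y

lemma Rk.mono {r r' : ℕ} {f : X → Y → K} (h : Rk r f) (hr : r ≤ r') : Rk r' f := by
  obtain ⟨n, a, b, hn, h⟩ := h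
  exact ⟨n, a, b, hn.trans hr, h⟩

lemma Rk.congr {r : ℕ} {f g : X → Y → K} (h : Rk r f) (hfg : ∀ x y, f x y = g x y) : Rk r g := by
  obtain ⟨n, a, b, hn, h⟩ := h
  exact ⟨n, a, b, hn, fun x y => by rw [← hfg, h]⟩

lemma Rk.of_fintype {ι : Type*} [Fintype ι] {f : X → Y → K} (a : ι → X → K) (b : ι → Y → K)
    (h : ∀ x y, f x y = ∑ i, a i x * b i y) : Rk (Fintype.card ι) f := by
  classical
  obtain ⟨e⟩ := Fintype.truncEquivFin ι |>.nonempty
  refine ⟨Fintype.card ι, fun i => a (e.symm i), fun i => b (e.symm i), le_refl _, fun x y => ?_⟩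
  rw [h]
  exact (Equiv.sum_comp e.symm (fun i => a i x * b i y)).symm

lemma Rk.zero : Rk 0 (fun (_ : X) (_ : Y) => (0 : K)) :=
  ⟨0, fun _ _ => 0, fun _ _ => 0, le_refl _, fun x y => by simp⟩

lemma Rk.left (a : X → K) : Rk 1 (fun (x : X) (_ : Y) => a x) :=
  ⟨1, fun _ => a, fun _ _ => 1, le_refl _, fun x y => by simp⟩

lemma Rk.right (b : Y → K) : Rk 1 (fun (_ : X) (y : Y) => b y) :=
  ⟨1, fun _ _ => 1, fun _ => b, le_refl _, fun x y => by simp⟩

lemma Rk.add {r s : ℕ} {f g : X → Y → K} (hf : Rk r f) (hg : Rk s g) :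
    Rk (r + s) (fun x y => f x y + g x y) := by
  obtain ⟨n, a, b, hn, hf⟩ := hf
  obtain ⟨m, c, d, hm, hg⟩ := hg
  have := Rk.of_fintype (f := fun x y => f x y + g x y) (ι := Fin n ⊕ Fin m)
    (Sum.elim a c) (Sum.elim b d) (fun x y => by
      rw [Fintype.sum_sum_type, hf, hg]
      rfl)
  refine this.mono ?_
  rw [Fintype.card_sum, Fintype.card_fin, Fintype.card_fin]
  omega

lemma Rk.mul {r s : ℕ} {f g : X → Y → K} (hf : Rk r f) (hg : Rk s g) :
    Rk (r * s) (fun x y => f x y * g x y) := by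
  obtain ⟨n, a, b, hn, hf⟩ := hf
  obtain ⟨m, c, d, hm, hg⟩ := hg
  have := Rk.of_fintype (f := fun x y => f x y * g x y) (ι := Fin n × Fin m)
    (fun i x => a i.1 x * c i.2 x) (fun i y => b i.1 y * d i.2 y) (fun x y => by
      rw [Fintype.sum_prod_type, hf, hg, Finset.sum_mul_sum]
      refine Finset.sum_congr rfl fun i _ => Finset.sum_congr rfl fun j _ => by ring)
  refine this.mono ?_
  rw [Fintype.card_prod, Fintype.card_fin, Fintype.card_fin]
  exact Nat.mul_le_mul hn hm

lemma Rk.sum {ι : Type*} (s : Finset ι) {r : ι → ℕ} {f : ι → X → Y → K}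
    (h : ∀ i ∈ s, Rk (r i) (f i)) : Rk (∑ i ∈ s, r i) (fun x y => ∑ i ∈ s, f i x y) := by
  classical
  induction s using Finset.induction_on with
  | empty => simpa using Rk.zero
  | insert i s hi ih =>
    rw [Finset.sum_insert hi]
    refine ((h i (Finset.mem_insert_self _ _)).add
      (ih fun j hj => h j (Finset.mem_insert_of_mem hj))).congr fun x y => ?_
    rw [Finset.sum_insert hi]

lemma Rk.prod {ι : Type*} (s : Finset ι) {r : ℕ} {f : ι → X → Y → K}
    (h : ∀ i ∈ s, Rk r (f i)) : Rk (r ^ s.card) (fun x y => ∏ i ∈ s, f i x y) := by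
  classical
  induction s using Finset.induction_on with
  | empty => simpa using Rk.left (K := K) (X := X) (Y := Y) (fun _ => 1)
  | insert i s hi ih =>
    rw [Finset.card_insert_of_notMem hi, pow_succ']
    refine ((h i (Finset.mem_insert_self _ _)).mul
      (ih fun j hj => h j (Finset.mem_insert_of_mem hj))).congr fun x y => ?_
    rw [Finset.prod_insert hi]

lemma Rk.smul {r : ℕ} {f : X → Y → K} (c : K) (h : Rk r f) : Rk r (fun x y => c * f x y) := by
  have := (Rk.left (K := K) (X := X) (Y := Y) (fun _ => c)).mul h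
  rwa [one_mul] at this

/-- the identity matrix needs as many products as it has rows -/
theorem Rk.card_le {Z : Type*} [Fintype Z] [DecidableEq Z] {r : ℕ}
    (h : Rk r (fun x y : Z => if x = y then (1 : K) else 0)) : Fintype.card Z ≤ r := by
  obtain ⟨n, a, b, hn, h⟩ := h
  refine le_trans ?_ hn
  have h1 : (1 : Matrix Z Z K) = (Matrix.of fun x i => a i x) * (Matrix.of fun i y => b i y) := by
    ext x y
    rw [Matrix.mul_apply, Matrix.one_apply]
    simp only [Matrix.of_apply]
    exact h x y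
  have h2 : (1 : Matrix Z Z K).rank ≤ (Matrix.of fun (x : Z) (i : Fin n) => a i x).rank := by
    rw [h1]
    exact Matrix.rank_mul_le_left _ _
  rw [Matrix.rank_one] at h2
  refine h2.trans ?_
  have := Matrix.rank_le_card_width (Matrix.of fun (x : Z) (i : Fin n) => a i x)
  rwa [Fintype.card_fin] at this

end Pool.Agent.J4H24.NS
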