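import Pool.Agent.J4H24.NS.Defs
import Pool.Agent.J4H24.NS.Rank

/-!
# Two large sets of variables that an oblivious program reads in few alternating blocks
-/

namespace Pool.Agent.J4H24.NS

open Finset

variable {V : Type*} [DecidableEq V]

/-- `s` is a concatenation of `m` blocks each of which avoids `A` or avoids `B` -/
inductive Blk (A B : Finset V) : ℕ → List V → Prop
  | nil : Blk A B 0 []
  | cons {m : ℕ} {s t : List V} (h : (∀ v ∈ s, v ∉ A) ∨ (∀ v ∈ s, v ∉ B)) (ht : Blk A B m t) :
      Blk A B (m + 1) (s ++ t)

omit [DecidableEq V] in
lemma Blk.mono {A B A' B' : Finset V} (hA : A' ⊆ A) (hB : B' ⊆ B) {m : ℕ} {s : List V}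
    (h : Blk A B m s) : Blk A' B' m s := by
  induction h with
  | nil => exact Blk.nil
  | cons h _ ih =>
    refine Blk.cons ?_ ih
    rcases h with h | h
    · exact Or.inl fun v hv hc => h v hv (hA hc)
    · exact Or.inr fun v hv hc => h v hv (hB hc)

omit [DecidableEq V] in
lemma Blk.succ {A B : Finset V} {m : ℕ} {s : List V} (h : Blk A B m s) : Blk A B (m + 1) s := by
  have := Blk.cons (s := []) (A := A) (B := B) (Or.inl (by simp)) h
  simpa using this

omit [DecidableEq V] in
lemma Blk.le {A B : Finset V} {m m' : ℕ} {s : List V} (h : Blk A B m s) (hm : m ≤ m') :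
    Blk A B m' s := by
  induction hm with
  | refl => exact h
  | step _ ih => exact ih.succ

omit [DecidableEq V] in
lemma Blk.one {A B : Finset V} {s : List V} (h : (∀ v ∈ s, v ∉ A) ∨ (∀ v ∈ s, v ∉ B)) (m : ℕ) :
    Blk A B (m + 1) s := by
  have := Blk.cons h (Blk.nil (A := A) (B := B))
  rw [List.append_nil] at this
  exact this.le (by omega)

/-- the elements of `A` that occur in `s` -/
def inn (A : Finset V) (s : List V) : Finset V := A.filter fun v => v ∈ s

lemma inn_sub (A : Finset V) (s : List V) : inn A s ⊆ A := Finset.filter_subset _ _

lemma card_inn_add (A : Finset V) (s : List V) : (inn A s).card + (A \ inn A s).card = A.card := by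
  have := Finset.card_sdiff_add_card_eq_card (inn_sub A s)
  omega

theorem exists_blk : ∀ (t a b : ℕ), t = a + b → ∀ (M : ℕ) (s : List V) (A B : Finset V),
    Disjoint A B → (∀ v ∈ A, s.count v ≤ a) → (∀ v ∈ B, s.count v ≤ b) →
    2 ^ t * M ≤ A.card → 2 ^ t * M ≤ B.card →
    ∃ A' ⊆ A, ∃ B' ⊆ B, M ≤ A'.card ∧ M ≤ B'.card ∧ Blk A' B' (t + 1) s
  | 0, a, b, ht, M, s, A, B, _, hA, _, hMA, hMB => by
    refine ⟨A, subset_refl _, B, subset_refl _, by simpa using hMA, by simpa using hMB,
      Blk.one (Or.inl fun v hv hvA => ?_) _⟩
    have h1 := hA v hvA
    have h2 : 0 < s.count v := List.count_pos_iff.mpr hv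
    omega
  | t + 1, a, b, ht, M, s, A, B, hAB, hA, hB, hMA, hMB => by
    have hM0 : 2 ^ t * M ≤ 2 ^ (t + 1) * M :=
      Nat.mul_le_mul_right _ (Nat.pow_le_pow_right (by norm_num) (by omega))
    have hM1 : M ≤ 2 ^ t * M := Nat.le_mul_of_pos_left _ (by positivity)
    by_cases hex : ∃ i, A.card ≤ 2 * (inn A (s.take i)).card ∨ B.card ≤ 2 * (inn B (s.take i)).card
    · classical
      set i := Nat.find hex with hi
      have hi1 := Nat.find_spec hex
      rw [← hi] at hi1
      rcases Nat.eq_zero_or_pos i with h0 | hpos
      · -- one of the sets is empty
        rw [h0] at hi1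
        have h1 : M = 0 := by
          rcases hi1 with h1 | h1
          · have : inn A (s.take 0) = ∅ := by simp [inn]
            rw [this, Finset.card_empty] at h1
            omega
          · have : inn B (s.take 0) = ∅ := by simp [inn]
            rw [this, Finset.card_empty] at h1
            omega
        refine ⟨∅, Finset.empty_subset _, ∅, Finset.empty_subset _, by omega, by omega,
          Blk.one (Or.inl fun v _ => Finset.notMem_empty _) _⟩
      · obtain ⟨i', hi'⟩ : ∃ i', i = i' + 1 := ⟨i - 1, by omega⟩
        have hmin := Nat.find_min hex (m := i') (by rw [← hi]; omega)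
        rw [not_or, not_le, not_le] at hmin
        -- at most one variable is new
        have hnew : inn A (s.take i) = inn A (s.take i') ∨ inn B (s.take i) = inn B (s.take i') := by
          by_cases hlen : i' < s.length
          · have hts : s.take i = s.take i' ++ [s[i']] := by
              rw [hi', List.take_succ_eq_append_getElem hlen]
            by_cases hw : s[i'] ∈ A
            · right
              have hw2 : s[i'] ∉ B := Finset.disjoint_left.mp hAB hw
              unfold inn
              rw [hts]
              refine Finset.filter_congr fun v hv => ?_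
              simp only [List.mem_append, List.mem_singleton]
              constructor
              · rintro (h | rfl)
                · exact h
                · exact absurd hv hw2
              · exact Or.inl
            · left
              unfold inn
              rw [hts]
              refine Finset.filter_congr fun v hv => ?_
              simp only [List.mem_append, List.mem_singleton]
              constructor
              · rintro (h | rfl)
                · exact h
                · exact absurd hv hw
              · exact Or.inl
          · left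
            rw [hi', List.take_of_length_le (by omega), List.take_of_length_le (by omega)]
        have hsplit : s = s.take i ++ s.drop i := (List.take_append_drop i s).symm
        have hcnt : ∀ v, s.count v = (s.take i).count v + (s.drop i).count v := by
          intro v
          conv_lhs => rw [hsplit]
          rw [List.count_append]
        have e1 : 2 ^ (t + 1) * M = 2 * (2 ^ t * M) := by ring
        rcases hi1 with h1 | h1
        · have h2 : inn B (s.take i) = inn B (s.take i') := by
            rcases hnew with h | h
            · rw [h] at h1
              omega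
            · exact h
          have ha : 1 ≤ a := by
            by_contra hc
            have : inn A (s.take i) = ∅ := by
              unfold inn
              refine Finset.filter_eq_empty_iff.mpr fun v hv hm => ?_
              have h3 := hA v hv
              have h4 : 0 < (s.take i).count v := List.count_pos_iff.mpr hm
              have h5 := hcnt v
              omega
            rw [this, Finset.card_empty] at h1
            omega
          have h3 := card_inn_add B (s.take i)
          obtain ⟨A', hA', B', hB', hMA', hMB', hblk⟩ := exists_blk t (a - 1) b (by omega) M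
            (s.drop i) (inn A (s.take i)) (B \ inn B (s.take i))
            (Finset.disjoint_of_subset_left (inn_sub _ _)
              (Finset.disjoint_of_subset_right Finset.sdiff_subset hAB))
            (by
              intro v hv
              have h4 := Finset.mem_filter.mp hv
              have h5 := hA v h4.1
              have h6 : 0 < (s.take i).count v := List.count_pos_iff.mpr h4.2
              have h7 := hcnt v
              omega)
            (by
              intro v hv
              have h5 := hB v (Finset.mem_sdiff.mp hv).1
              have h7 := hcnt v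
              omega)
            (by omega) (by rw [h2] at h3 ⊢; omega)
          refine ⟨A', hA'.trans (inn_sub _ _), B', hB'.trans Finset.sdiff_subset, hMA', hMB', ?_⟩
          rw [hsplit]
          refine Blk.cons (Or.inr fun v hv hvB => ?_) hblk
          have h4 := Finset.mem_sdiff.mp (hB' hvB)
          exact h4.2 (Finset.mem_filter.mpr ⟨h4.1, hv⟩)
        · have h2 : inn A (s.take i) = inn A (s.take i') := by
            rcases hnew with h | h
            · exact h
            · rw [h] at h1
              omega
          have hb : 1 ≤ b := by
            by_contra hc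
            have : inn B (s.take i) = ∅ := by
              unfold inn
              refine Finset.filter_eq_empty_iff.mpr fun v hv hm => ?_
              have h3 := hB v hv
              have h4 : 0 < (s.take i).count v := List.count_pos_iff.mpr hm
              have h5 := hcnt v
              omega
            rw [this, Finset.card_empty] at h1
            omega
          have h3 := card_inn_add A (s.take i)
          obtain ⟨A', hA', B', hB', hMA', hMB', hblk⟩ := exists_blk t a (b - 1) (by omega) M
            (s.drop i) (A \ inn A (s.take i)) (inn B (s.take i))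
            (Finset.disjoint_of_subset_left Finset.sdiff_subset
              (Finset.disjoint_of_subset_right (inn_sub _ _) hAB))
            (by
              intro v hv
              have h5 := hA v (Finset.mem_sdiff.mp hv).1
              have h7 := hcnt v
              omega)
            (by
              intro v hv
              have h4 := Finset.mem_filter.mp hv
              have h5 := hB v h4.1
              have h6 : 0 < (s.take i).count v := List.count_pos_iff.mpr h4.2
              have h7 := hcnt v
              omega)
            (by rw [h2] at h3 ⊢; omega) (by omega)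
          refine ⟨A', hA'.trans Finset.sdiff_subset, B', hB'.trans (inn_sub _ _), hMA', hMB', ?_⟩
          rw [hsplit]
          refine Blk.cons (Or.inl fun v hv hvA => ?_) hblk
          have h4 := Finset.mem_sdiff.mp (hA' hvA)
          exact h4.2 (Finset.mem_filter.mpr ⟨h4.1, hv⟩)
    · push Not at hex
      have h1 := (hex s.length).1
      rw [List.take_length] at h1
      have h3 := card_inn_add A s
      have e1 : 2 ^ (t + 1) * M = 2 * (2 ^ t * M) := by ring
      refine ⟨A \ inn A s, Finset.sdiff_subset, B, subset_refl _, by omega, by omega,
        Blk.one (Or.inl fun v hv hvA => ?_) _⟩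
      have h4 := Finset.mem_sdiff.mp hvA
      exact h4.2 (Finset.mem_filter.mpr ⟨h4.1, hv⟩)

/-- for several sequences -/
theorem exists_blks (k M : ℕ) : ∀ (L : List (List V)) (A B : Finset V),
    Disjoint A B → (∀ s ∈ L, ∀ v, s.count v ≤ k) →
    2 ^ (2 * k * L.length) * M ≤ A.card → 2 ^ (2 * k * L.length) * M ≤ B.card →
    ∃ A' ⊆ A, ∃ B' ⊆ B, M ≤ A'.card ∧ M ≤ B'.card ∧ ∀ s ∈ L, Blk A' B' (2 * k + 1) s
  | [], A, B, _, _, hMA, hMB => by
    refine ⟨A, subset_refl _, B, subset_refl _, by simpa using hMA, by simpa using hMB, by simp⟩
  | s :: L, A, B, hAB, hL, hMA, hMB => by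
    have e1 : 2 ^ (2 * k * (s :: L).length) * M = 2 ^ (2 * k) * (2 ^ (2 * k * L.length) * M) := by
      rw [List.length_cons, Nat.mul_succ, pow_add]
      ring
    rw [e1] at hMA hMB
    obtain ⟨A1, hA1, B1, hB1, hMA1, hMB1, hblk⟩ := exists_blk (2 * k) k k (by omega)
      (2 ^ (2 * k * L.length) * M) s A B hAB
      (fun v _ => hL s List.mem_cons_self v) (fun v _ => hL s List.mem_cons_self v) hMA hMB
    obtain ⟨A2, hA2, B2, hB2, hMA2, hMB2, hblks⟩ := exists_blks k M L A1 B1
      (Finset.disjoint_of_subset_left hA1 (Finset.disjoint_of_subset_right hB1 hAB))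
      (fun s' hs' => hL s' (List.mem_cons_of_mem _ hs')) hMA1 hMB1
    refine ⟨A2, hA2.trans hA1, B2, hB2.trans hB1, hMA2, hMB2, fun s' hs' => ?_⟩
    rcases List.mem_cons.mp hs' with rfl | hs'
    · exact hblk.mono hA2 hB2
    · exact hblks s' hs'

omit [DecidableEq V] in
/-- the entries of the matrix of a program are sums of few products -/
lemma rk_entries {K X Y : Type*} [Field K] {W : ℕ} {A B : Finset V} (Z : X → Y → V → Bool)
    (hA : ∀ v ∉ A, ∀ x x' y, Z x y v = Z x' y v) (hB : ∀ v ∉ B, ∀ x y y', Z x y v = Z x y' v)
    {m : ℕ} {s : List V} (h : Blk A B m s) :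
    ∀ (M : List (V × (Bool → Matrix (Fin W) (Fin W) K))), M.map Prod.fst = s → ∀ i j,
      Rk (W ^ m) (fun x y => (M.map fun a => a.2 (Z x y a.1)).prod i j) := by
  induction h with
  | nil =>
    intro M hM i j
    rw [List.map_eq_nil_iff] at hM
    subst hM
    simpa using Rk.left (K := K) (X := X) (Y := Y) (fun _ => (1 : Matrix (Fin W) (Fin W) K) i j)
  | @cons m s t h ht ih =>
    intro M hM i j
    obtain ⟨M1, M2, rfl, hM1, hM2⟩ := List.map_eq_append_iff.mp hM
    have h1 : ∀ i l, Rk 1 (fun x y => (M1.map fun a => a.2 (Z x y a.1)).prod i l) := by
      intro i l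
      rcases isEmpty_or_nonempty X with hX | ⟨⟨x0⟩⟩
      · exact (Rk.left (K := K) (X := X) (Y := Y) (fun _ => 0)).congr fun x => hX.elim x
      rcases isEmpty_or_nonempty Y with hY | ⟨⟨y0⟩⟩
      · exact (Rk.left (K := K) (X := X) (Y := Y) (fun _ => 0)).congr fun _ y => hY.elim y
      rcases h with h | h
      · refine (Rk.right (K := K) (X := X)
          (fun y => (M1.map fun a => a.2 (Z x0 y a.1)).prod i l)).congr fun x y => ?_
        have : (M1.map fun a => a.2 (Z x0 y a.1)) = (M1.map fun a => a.2 (Z x y a.1)) := by
          refine List.map_congr_left fun a ha => ?_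
          rw [hA a.1 (h _ (by rw [← hM1]; exact List.mem_map_of_mem ha)) x0 x y]
        rw [this]
      · refine (Rk.left (K := K) (Y := Y)
          (fun x => (M1.map fun a => a.2 (Z x y0 a.1)).prod i l)).congr fun x y => ?_
        have : (M1.map fun a => a.2 (Z x y0 a.1)) = (M1.map fun a => a.2 (Z x y a.1)) := by
          refine List.map_congr_left fun a ha => ?_
          rw [hB a.1 (h _ (by rw [← hM1]; exact List.mem_map_of_mem ha)) x y0 y]
        rw [this]
    have h2 := Rk.sum (univ : Finset (Fin W)) (r := fun _ => 1 * W ^ m)
      (f := fun l x y => (M1.map fun a => a.2 (Z x y a.1)).prod i l *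
        (M2.map fun a => a.2 (Z x y a.1)).prod l j) (fun l _ => (h1 i l).mul (ih M2 hM2 l j))
    rw [Finset.sum_const, Finset.card_univ, Fintype.card_fin, smul_eq_mul, one_mul,
      ← pow_succ'] at h2
    refine h2.congr fun x y => ?_
    rw [List.map_append, List.prod_append, Matrix.mul_apply]

omit [DecidableEq V] in
/-- a function that is computed by a program is a sum of few products -/
lemma rk_obp {K X Y : Type*} [Field K] {W : ℕ} {A B : Finset V} (Z : X → Y → V → Bool)
    (hA : ∀ v ∉ A, ∀ x x' y, Z x y v = Z x' y v) (hB : ∀ v ∉ B, ∀ x y y', Z x y v = Z x y' v)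
    {m : ℕ} {s : List V} (h : Blk A B m s) {g : (V → Bool) → K} (hg : OBP K W s g) :
    Rk (W ^ (m + 2)) (fun x y => g (Z x y)) := by
  obtain ⟨M, u, v, hM, hg⟩ := hg
  have h1 := Rk.sum (univ : Finset (Fin W)) (r := fun _ => ∑ _j : Fin W, 1 * W ^ m * 1)
    (f := fun i x y => ∑ j, u i * (M.map fun a => a.2 (Z x y a.1)).prod i j * v j)
    (fun i _ => Rk.sum (univ : Finset (Fin W)) fun j _ =>
      ((Rk.left (fun _ => u i)).mul (rk_entries Z hA hB h M hM i j)).mul (Rk.left (fun _ => v j)))
  refine (h1.congr fun x y => (hg _).symm).mono ?_
  simp only [Finset.sum_const, Finset.card_univ, Fintype.card_fin, smul_eq_mul, one_mul, mul_one]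
  rw [pow_succ', pow_succ']

end Pool.Agent.J4H24.NS
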