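import Pool.Agent.J4H24.NS.Gap
import Pool.Agent.J4H24.NS.Seq

/-!
# The formula: the lifted pebbling contradiction of the pyramid with pointers
-/

namespace Pool.Agent.J4H24.NS

open Finset

/-- threshold encoding of a number by `N` bits: the clause that is false iff the number is `r` -/
def thr (N r : ℕ) : Finset (Fin N × Bool) :=
  univ.filter fun p => ((p.1 : ℕ) + 1 = r ∧ p.2 = false) ∨ ((p.1 : ℕ) = r ∧ p.2 = true)

lemma mem_thr {N r : ℕ} {p : Fin N × Bool} : p ∈ thr N r ↔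
    ((p.1 : ℕ) + 1 = r ∧ p.2 = false) ∨ ((p.1 : ℕ) = r ∧ p.2 = true) := by
  simp [thr]

lemma card_thr_le (N r : ℕ) : (thr N r).card ≤ 2 := by
  have h1 : (thr N r).card ≤ (univ : Finset Bool).card := by
    refine Finset.card_le_card_of_injOn (fun p => p.2) (fun _ _ => mem_univ _) ?_
    rintro ⟨i, b⟩ hp ⟨j, c⟩ hq hpq
    rw [Finset.mem_coe, mem_thr] at hp hq
    simp only at hp hq hpq
    subst hpq
    have : i = j := by
      rcases hp with hp | hp <;> rcases hq with hq | hq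
      · exact Fin.ext (by omega)
      · exact absurd (hp.2.symm.trans hq.2) (by simp)
      · exact absurd (hp.2.symm.trans hq.2) (by simp)
      · exact Fin.ext (by omega)
    rw [this]
  simpa using h1

lemma exists_thr {N : ℕ} (b : Fin N → Bool) : ∃ r : Fin (N + 1), Fals (thr N r) b := by
  have hex : ∃ r : ℕ, r = N ∨ ∃ hr : r < N, b ⟨r, hr⟩ = false := ⟨N, Or.inl rfl⟩
  classical
  have h1 := Nat.find_spec hex
  have h2 : Nat.find hex ≤ N := Nat.find_min' hex (Or.inl rfl)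
  refine ⟨⟨Nat.find hex, by omega⟩, ?_⟩
  rintro ⟨j, c⟩ hj
  rw [mem_thr] at hj
  rcases hj with ⟨hj, hc⟩ | ⟨hj, hc⟩
  · simp only at hj hc
    have h3 := Nat.find_min hex (m := j) (by omega)
    rw [not_or, not_exists] at h3
    have h4 := h3.2 j.2
    simp only [Fin.eta] at h4
    rw [hc]
    exact h4
  · simp only at hj hc
    rw [hc]
    rcases h1 with h1 | ⟨h3, h1⟩
    · have := j.2
      omega
    · have h4 : j = ⟨Nat.find hex, h3⟩ := Fin.ext hj
      simp only
      rw [h4, h1]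
      simp

lemma thr_self {N r : ℕ} : Fals (thr N r) (fun j : Fin N => decide ((j : ℕ) < r)) := by
  rintro ⟨j, c⟩ hj
  rw [mem_thr] at hj
  rcases hj with ⟨hj, hc⟩ | ⟨hj, hc⟩
  · simp only at hj hc ⊢
    rw [hc, Bool.ne_false_iff, decide_eq_true_iff]
    omega
  · simp only at hj hc ⊢
    rw [hc, ne_eq, decide_eq_true_iff]
    omega

lemma thr_eq {N : ℕ} {r r' : Fin (N + 1)}
    (h : Fals (thr N r) (fun j : Fin N => decide ((j : ℕ) < r'))) : r = r' := by
  refine Fin.ext ?_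
  have hr := r.2
  have hr' := r'.2
  rcases lt_trichotomy (r : ℕ) r' with h1 | h1 | h1
  · have h2 := h (⟨r, by omega⟩, true) (mem_thr.mpr (Or.inr ⟨rfl, rfl⟩))
    simp only [ne_eq, decide_eq_true_eq] at h2
    omega
  · exact h1
  · have h2 := h (⟨r - 1, by omega⟩, false)
      (mem_thr.mpr (Or.inl ⟨by simp only; omega, rfl⟩))
    simp only [ne_eq, decide_eq_false_iff_not, not_not] at h2
    omega

variable {h Q M : ℕ}

/-- the bits of the lifted variables: a vertex, a side and a threshold -/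
abbrev Lb (h Q : ℕ) := Ver h × Bool × Fin Q

/-- the variables: for every bit the threshold encoding of a pointer, and the cells to which the
pointers point -/
abbrev Vr (h Q M : ℕ) := (Lb h Q × Fin M) ⊕ Fin (M + 1)

/-- the vertices of a clause of the pebbling contradiction -/
def bs {h : ℕ} : Option (Ver h) → Finset (Ver h)
  | none => {apex h}
  | some v => insert v (pred h v)

lemma card_bs_le {h : ℕ} (β : Option (Ver h)) : (bs β).card ≤ 3 := by
  rcases β with _ | v
  · simp [bs]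
  · refine (Finset.card_insert_le _ _).trans ?_
    have := card_pred_le v
    omega

section

variable {V : Type*} [DecidableEq V] (e : Vr h Q M → V)

/-- the clause that is false iff the pointer of the bit `l` is `p` and the cell `p` is not `c` -/
def cell (l : Lb h Q) (c : Bool) (p : Fin (M + 1)) : Finset (V × Bool) :=
  insert (e (Sum.inr p), c) ((thr M p).image fun q => (e (Sum.inl (l, q.1)), q.2))

lemma card_cell_le (l : Lb h Q) (c : Bool) (p : Fin (M + 1)) : (cell e l c p).card ≤ 3 := by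
  refine (Finset.card_insert_le _ _).trans ?_
  have h1 := card_thr_le M p
  have h2 : ((thr M p).image fun q => (e (Sum.inl (l, q.1)), q.2)).card ≤ (thr M p).card :=
    Finset.card_image_le
  omega

lemma fals_cell {l : Lb h Q} {c : Bool} {p : Fin (M + 1)} {x : V → Bool} :
    Fals (cell e l c p) x ↔ x (e (Sum.inr p)) ≠ c ∧
      Fals (thr M p) (fun j => x (e (Sum.inl (l, j)))) := by
  unfold cell Fals
  rw [Finset.forall_mem_insert, Finset.forall_mem_image]

/-- a clause of the formula -/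
def cl (β : Option (Ver h)) (ξ : Bool → Ver h → Fin (Q + 1)) (P : Lb h Q → Fin (M + 1)) :
    Finset (V × Bool) :=
  (bs β).biUnion fun v => univ.biUnion fun s : Bool => (thr Q (ξ s v)).biUnion fun q =>
    cell e (v, s, q.1) q.2 (P (v, s, q.1))

lemma card_cl_le (β : Option (Ver h)) (ξ : Bool → Ver h → Fin (Q + 1))
    (P : Lb h Q → Fin (M + 1)) : (cl e β ξ P).card ≤ 36 := by
  have h1 : ∀ v s, ((thr Q (ξ s v)).biUnion fun q => cell e (v, s, q.1) q.2
      (P (v, s, q.1))).card ≤ 6 := fun v s =>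
    (Finset.card_biUnion_le_card_mul _ _ 3 (fun q _ => card_cell_le e _ _ _)).trans
      (by have := card_thr_le Q (ξ s v); omega)
  have h2 : ∀ v, ((univ : Finset Bool).biUnion fun s => (thr Q (ξ s v)).biUnion fun q =>
      cell e (v, s, q.1) q.2 (P (v, s, q.1))).card ≤ 12 := fun v =>
    (Finset.card_biUnion_le_card_mul _ _ 6 (fun s _ => h1 v s)).trans (by simp)
  refine (Finset.card_biUnion_le_card_mul _ _ 12 (fun v _ => h2 v)).trans ?_
  have := card_bs_le β
  omega

lemma fals_cl {β : Option (Ver h)} {ξ : Bool → Ver h → Fin (Q + 1)}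
    {P : Lb h Q → Fin (M + 1)} {x : V → Bool} : Fals (cl e β ξ P) x ↔
      ∀ v ∈ bs β, ∀ s, ∀ q ∈ thr Q (ξ s v), x (e (Sum.inr (P (v, s, q.1)))) ≠ q.2 ∧
        Fals (thr M (P (v, s, q.1))) (fun j => x (e (Sum.inl ((v, s, q.1), j)))) := by
  constructor
  · intro hf v hv s q hq
    rw [← fals_cell]
    intro l hl
    exact hf l (Finset.mem_biUnion.mpr ⟨v, hv, Finset.mem_biUnion.mpr ⟨s, mem_univ _,
      Finset.mem_biUnion.mpr ⟨q, hq, hl⟩⟩⟩)
  · intro hf l hl
    obtain ⟨v, hv, hl⟩ := Finset.mem_biUnion.mp hl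
    obtain ⟨s, -, hl⟩ := Finset.mem_biUnion.mp hl
    obtain ⟨q, hq, hl⟩ := Finset.mem_biUnion.mp hl
    exact (fals_cell e).mpr (hf v hv s q hq) l hl

/-- the values violate the clause of the pebbling contradiction -/
def viol {h Q : ℕ} (a b : Ver h → Fin (Q + 1)) : Option (Ver h) → Prop
  | none => ¬ (a (apex h) = b (apex h) ∧ a (apex h) ≠ 0)
  | some v => (a v = b v ∧ a v ≠ 0) ∧ ∀ u ∈ pred h v, ¬ (a u = b u ∧ a u ≠ 0)

open Classical in
/-- the formula -/
noncomputable def frm : Finset (Finset (V × Bool)) :=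
  ((univ : Finset (Option (Ver h) × (Bool → Ver h → Fin (Q + 1)) × (Lb h Q → Fin (M + 1)))).filter
    fun i => viol (i.2.1 false) (i.2.1 true) i.1).image fun i => cl e i.1 i.2.1 i.2.2

lemma mem_frm {C : Finset (V × Bool)} : C ∈ frm e ↔
    ∃ (β : Option (Ver h)) (ξ : Bool → Ver h → Fin (Q + 1)) (P : Lb h Q → Fin (M + 1)),
      viol (ξ false) (ξ true) β ∧ cl e β ξ P = C := by
  classical
  unfold frm
  rw [Finset.mem_image]
  constructor
  · rintro ⟨⟨β, ξ, P⟩, h1, h2⟩
    exact ⟨β, ξ, P, (Finset.mem_filter.mp h1).2, h2⟩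
  · rintro ⟨β, ξ, P, h1, h2⟩
    exact ⟨⟨β, ξ, P⟩, Finset.mem_filter.mpr ⟨mem_univ _, h1⟩, h2⟩

lemma frm_width {C : Finset (V × Bool)} (hC : C ∈ frm e) : C.card ≤ 36 := by
  obtain ⟨β, ξ, P, -, rfl⟩ := (mem_frm e).mp hC
  exact card_cl_le e β ξ P

lemma frm_unsat (x : V → Bool) : ∃ C ∈ frm e, Fals C x := by
  classical
  choose P hP using fun l => exists_thr (fun j => x (e (Sum.inl (l, j))))
  choose ξ hξ using fun (s : Bool) (v : Ver h) =>
    exists_thr (fun i : Fin Q => x (e (Sum.inr (P (v, s, i)))))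
  have key : ∀ β, viol (ξ false) (ξ true) β → ∃ C ∈ frm e, Fals C x := by
    intro β hβ
    refine ⟨cl e β ξ P, (mem_frm e).mpr ⟨β, ξ, P, hβ, rfl⟩, (fals_cl e).mpr ?_⟩
    intro v _ s q hq
    exact ⟨hξ s v q hq, hP _⟩
  by_cases ht : ξ false (apex h) = ξ true (apex h) ∧ ξ false (apex h) ≠ 0
  · obtain ⟨v, hv, hu⟩ := peb_unsat
      (fun v => decide (ξ false v = ξ true v ∧ ξ false v ≠ 0)) (by simpa using ht)
    refine key (some v) ⟨of_decide_eq_true hv, fun u hu' => of_decide_eq_false (hu u hu')⟩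
  · exact key none ht

/-- the assignment with the pointers `π` and the values `x`, `y` -/
noncomputable def Zf (π : Lb h Q → Fin (M + 1)) (x y : Ver h → Fin (Q + 1)) (w : V) : Bool :=
  open Classical in
  decide ((∃ l j, e (Sum.inl (l, j)) = w ∧ (j : ℕ) < π l) ∨
    (∃ v i, e (Sum.inr (π (v, false, i))) = w ∧ (i : ℕ) < x v) ∨
    (∃ v i, e (Sum.inr (π (v, true, i))) = w ∧ (i : ℕ) < y v))

lemma Zf_inl (he : Function.Injective e) {π : Lb h Q → Fin (M + 1)}
    {x y : Ver h → Fin (Q + 1)} (l : Lb h Q) (j : Fin M) :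
    Zf e π x y (e (Sum.inl (l, j))) = decide ((j : ℕ) < π l) := by
  unfold Zf
  rw [decide_eq_decide]
  constructor
  · rintro (⟨l', j', h1, h2⟩ | ⟨v, i, h1, -⟩ | ⟨v, i, h1, -⟩)
    · have h3 := Sum.inl_injective (he h1)
      rw [Prod.mk.injEq] at h3
      rw [← h3.1, ← h3.2]
      exact h2
    · exact absurd (he h1) (by simp)
    · exact absurd (he h1) (by simp)
  · intro h1
    exact Or.inl ⟨l, j, rfl, h1⟩

lemma Zf_inr (he : Function.Injective e) {π : Lb h Q → Fin (M + 1)} (hπ : Function.Injective π)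
    {x y : Ver h → Fin (Q + 1)} (v : Ver h) (s : Bool) (i : Fin Q) :
    Zf e π x y (e (Sum.inr (π (v, s, i)))) = decide ((i : ℕ) < (bif s then y else x) v) := by
  unfold Zf
  rw [decide_eq_decide]
  constructor
  · rintro (⟨l', j', h1, h2⟩ | ⟨v', i', h1, h2⟩ | ⟨v', i', h1, h2⟩)
    · exact absurd (he h1) (by simp)
    · have h3 := hπ (Sum.inr_injective (he h1))
      simp only [Prod.mk.injEq] at h3
      rw [← h3.1, ← h3.2.1, ← h3.2.2]
      exact h2
    · have h3 := hπ (Sum.inr_injective (he h1))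
      simp only [Prod.mk.injEq] at h3
      rw [← h3.1, ← h3.2.1, ← h3.2.2]
      exact h2
  · intro h1
    cases s
    · exact Or.inr (Or.inl ⟨v, i, rfl, h1⟩)
    · exact Or.inr (Or.inr ⟨v, i, rfl, h1⟩)

/-- a clause is false on a rectangle -/
lemma fals_Zf (he : Function.Injective e) {π : Lb h Q → Fin (M + 1)} (hπ : Function.Injective π)
    {x y : Ver h → Fin (Q + 1)} {β : Option (Ver h)} {ξ : Bool → Ver h → Fin (Q + 1)}
    {P : Lb h Q → Fin (M + 1)} : Fals (cl e β ξ P) (Zf e π x y) ↔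
      ((∀ v ∈ bs β, ∀ s, ∀ q ∈ thr Q (ξ s v), P (v, s, q.1) = π (v, s, q.1)) ∧
        ∀ v ∈ bs β, ξ false v = x v) ∧ ∀ v ∈ bs β, ξ true v = y v := by
  rw [fals_cl]
  simp only [Zf_inl e he]
  constructor
  · intro hf
    have hP : ∀ v ∈ bs β, ∀ s, ∀ q ∈ thr Q (ξ s v), P (v, s, q.1) = π (v, s, q.1) :=
      fun v hv s q hq => thr_eq (hf v hv s q hq).2
    have hv : ∀ v ∈ bs β, ∀ s, ξ s v = (bif s then y else x) v := by
      intro v hv s
      refine thr_eq fun q hq => ?_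
      have h1 := (hf v hv s q hq).1
      rw [hP v hv s q hq, Zf_inr e he hπ] at h1
      exact h1
    exact ⟨⟨hP, fun v hv' => hv v hv' false⟩, fun v hv' => hv v hv' true⟩
  · rintro ⟨⟨hP, hx⟩, hy⟩ v hv s q hq
    rw [hP v hv s q hq, Zf_inr e he hπ]
    refine ⟨?_, thr_self⟩
    have h1 : ξ s v = (bif s then y else x) v := by
      cases s
      · exact hx v hv
      · exact hy v hv
    rw [← h1]
    exact thr_self q hq

theorem frm_lower (hQ : Q = 2 * Fintype.card (Ver h)) (he : Function.Injective e)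
    {K : Type*} [Field K] {π : Lb h Q → Fin (M + 1)} (hπ : Function.Injective π) {A B : Finset V}
    (hA : ∀ v i, e (Sum.inr (π (v, false, i))) ∈ A)
    (hB : ∀ v i, e (Sum.inr (π (v, true, i))) ∈ B) (r : ℕ)
    (g : Finset (V × Bool) → (V → Bool) → K)
    (hr : ∀ Z : (Ver h → Fin (Q + 1)) → (Ver h → Fin (Q + 1)) → V → Bool,
      (∀ v ∉ A, ∀ x x' y, Z x y v = Z x' y v) → (∀ v ∉ B, ∀ x y y', Z x y v = Z x y' v) →
      ∀ C ∈ frm e, Rk r (fun x y => g C (Z x y)))
    (hsum : ∀ x, (∀ v ∉ Set.range e, x v = false) → ∑ C ∈ frm e with Fals C x, g C x = 1) :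
    2 ^ (h + 1) ≤ 3 * ((frm e).card * r) := by
  classical
  have hex : ∀ C : Finset (V × Bool), ∃ i : Option (Ver h) × (Bool → Ver h → Fin (Q + 1)) ×
      (Lb h Q → Fin (M + 1)), C ∈ frm e →
      viol (i.2.1 false) (i.2.1 true) i.1 ∧ cl e i.1 i.2.1 i.2.2 = C := by
    intro C
    by_cases hC : C ∈ frm e
    · obtain ⟨β, ξ, P, h1, h2⟩ := (mem_frm e).mp hC
      exact ⟨⟨β, ξ, P⟩, fun _ => ⟨h1, h2⟩⟩
    · exact ⟨⟨none, fun _ _ => 0, fun _ => 0⟩, fun hc => absurd hc hC⟩
  choose φ hφ using hex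
  refine core (K := K) hQ (frm e)
    (fun C x => if ((∀ v ∈ bs (φ C).1, ∀ s, ∀ q ∈ thr Q ((φ C).2.1 s v),
      (φ C).2.2 (v, s, q.1) = π (v, s, q.1)) ∧ ∀ v ∈ bs (φ C).1, (φ C).2.1 false v = x v)
      then 1 else 0)
    (fun C y => if ∀ v ∈ bs (φ C).1, (φ C).2.1 true v = y v then 1 else 0)
    (fun C x y => g C (Zf e π x y)) r ?_ ?_ ?_
  · refine fun C hC => hr (Zf e π) ?_ ?_ C hC
    · intro v hv x x' y
      unfold Zf
      rw [decide_eq_decide]
      have h1 : ∀ x'' : Ver h → Fin (Q + 1),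
          ¬ ∃ u i, e (Sum.inr (π (u, false, i))) = v ∧ (i : ℕ) < x'' u := by
        rintro x'' ⟨u, i, rfl, -⟩
        exact hv (hA u i)
      simp only [h1, false_or]
    · intro v hv x y y'
      unfold Zf
      rw [decide_eq_decide]
      have h1 : ∀ x'' : Ver h → Fin (Q + 1),
          ¬ ∃ u i, e (Sum.inr (π (u, true, i))) = v ∧ (i : ℕ) < x'' u := by
        rintro x'' ⟨u, i, rfl, -⟩
        exact hv (hB u i)
      simp only [h1, or_false]
  · intro C hC
    obtain ⟨h1, -⟩ := hφ C hC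
    have h2 : ∀ x y : Ver h → Fin (Q + 1), (if ((∀ v ∈ bs (φ C).1, ∀ s,
        ∀ q ∈ thr Q ((φ C).2.1 s v), (φ C).2.2 (v, s, q.1) = π (v, s, q.1)) ∧
        ∀ v ∈ bs (φ C).1, (φ C).2.1 false v = x v) then (1 : K) else 0) *
        (if ∀ v ∈ bs (φ C).1, (φ C).2.1 true v = y v then 1 else 0) ≠ 0 →
        ∀ v ∈ bs (φ C).1, (φ C).2.1 false v = x v ∧ (φ C).2.1 true v = y v := by
      intro x y hne v hv
      constructor
      · by_contra hc
        refine hne ?_
        rw [if_neg (fun h3 => hc (h3.2 v hv)), zero_mul]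
      · by_contra hc
        refine hne ?_
        rw [if_neg (fun h3 : ∀ v ∈ bs (φ C).1, (φ C).2.1 true v = y v => hc (h3 v hv)), mul_zero]
    have h3 : ∀ a b : Fin (Q + 1), gad K a b = if a = b ∧ a ≠ 0 then 1 else 0 := fun _ _ => rfl
    obtain ⟨β, hβ⟩ : ∃ β, β = (φ C).1 := ⟨_, rfl⟩
    rcases β with _ | v
    · left
      intro x y hne
      rw [← hβ] at h1
      obtain ⟨h4, h5⟩ := h2 x y hne (apex h) (by rw [← hβ]; simp [bs])
      rw [← h4, ← h5, h3, if_neg h1]
    · right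
      rw [← hβ] at h1
      refine ⟨v, fun x y hne => ⟨?_, fun u hu => ?_⟩⟩
      · obtain ⟨h4, h5⟩ := h2 x y hne v (by rw [← hβ]; simp [bs])
        rw [← h4, ← h5, h3, if_pos h1.1]
      · obtain ⟨h4, h5⟩ := h2 x y hne u (by rw [← hβ]; simp [bs, hu])
        rw [← h4, ← h5, h3, if_neg (h1.2 u hu)]
  · intro x y
    have h0 := hsum (Zf e π x y) (fun v hv => by
      unfold Zf
      rw [decide_eq_false_iff_not]
      rintro (⟨l, j, h1, -⟩ | ⟨f, i, h1, -⟩ | ⟨f, i, h1, -⟩)
      · exact hv ⟨_, h1⟩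
      · exact hv ⟨_, h1⟩
      · exact hv ⟨_, h1⟩)
    rw [Finset.sum_filter] at h0
    refine Eq.trans ?_ h0
    refine Finset.sum_congr rfl fun C hC => ?_
    obtain ⟨-, h1⟩ := hφ C hC
    have h2 := fals_Zf e he hπ (x := x) (y := y) (β := (φ C).1) (ξ := (φ C).2.1) (P := (φ C).2.2)
    rw [h1] at h2
    simp only [ite_mul, one_mul, zero_mul]
    rw [← ite_and]
    by_cases h3 : Fals C (Zf e π x y)
    · rw [if_pos h3, if_pos (h2.mp h3)]
    · rw [if_neg h3, if_neg (fun hc => h3 (h2.mpr hc))]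

end

end Pool.Agent.J4H24.NS
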