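import Mathlib

/-!
# Nullstellensatz refutations whose coefficients are oblivious algebraic branching programs

Clauses are finite sets of literals; a literal is a pair `(v, c)` of a variable and the value of the
variable that makes the literal true.
-/

namespace Pool.Agent.J4H24.NS

variable {V : Type*}

/-- the assignment `x` falsifies the clause `C` -/
def Fals (C : Finset (V × Bool)) (x : V → Bool) : Prop := ∀ l ∈ C, x l.1 ≠ l.2

instance (C : Finset (V × Bool)) (x : V → Bool) : Decidable (Fals C x) :=
  inferInstanceAs (Decidable (∀ l ∈ C, x l.1 ≠ l.2))

/-- The function `g` on the Boolean assignments is computed by an oblivious algebraic branching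
program of width `W` over `K` that reads the variables in the order of the list `s`: `g x` is the
product of a row vector `u`, of one `W × W` matrix for every element of `s`, which depends only on
the value of this variable, and of a column vector `v`. -/
def OBP (K : Type*) [Field K] (W : ℕ) (s : List V) (g : (V → Bool) → K) : Prop :=
  ∃ (M : List (V × (Bool → Matrix (Fin W) (Fin W) K))) (u v : Fin W → K),
    M.map Prod.fst = s ∧
    ∀ x : V → Bool, g x = ∑ i, ∑ j, u i * (M.map fun a => a.2 (x a.1)).prod i j * v j

end Pool.Agent.J4H24.NS
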