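import Mathlib

/-!
# Reversible pebbling of pyramids
-/

namespace Pool.Agent.J4H24.NS

open Finset

/-- the vertices: a square that contains the pyramid `i + j ≤ h` -/
abbrev Ver (h : ℕ) := Fin (h + 1) × Fin (h + 1)

/-- the predecessors of a vertex: `(i, j)` and `(i, j + 1)` for `(i + 1, j)` in the pyramid -/
def pred (h : ℕ) (v : Ver h) : Finset (Ver h) :=
  univ.filter fun u => (v.1 : ℕ) + v.2 ≤ h ∧ (u.1 : ℕ) + 1 = v.1 ∧
    ((u.2 : ℕ) = v.2 ∨ (u.2 : ℕ) = v.2 + 1)

lemma mem_pred {h : ℕ} {u v : Ver h} : u ∈ pred h v ↔ (v.1 : ℕ) + v.2 ≤ h ∧ (u.1 : ℕ) + 1 = v.1 ∧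
    ((u.2 : ℕ) = v.2 ∨ (u.2 : ℕ) = v.2 + 1) := by
  simp [pred]

lemma card_pred_le {h : ℕ} (v : Ver h) : (pred h v).card ≤ 2 := by
  have h1 : (pred h v).card ≤ (univ : Finset Bool).card := by
    refine Finset.card_le_card_of_injOn (fun u => decide ((u.2 : ℕ) = v.2))
      (fun _ _ => mem_univ _) ?_
    intro u hu w hw huw
    rw [Finset.mem_coe, mem_pred] at hu hw
    simp only [decide_eq_decide] at huw
    refine Prod.ext (Fin.ext (by omega)) (Fin.ext ?_)
    by_cases h1 : (u.2 : ℕ) = v.2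
    · have := huw.mp h1
      omega
    · have h2 : ¬ (w.2 : ℕ) = v.2 := fun h => h1 (huw.mpr h)
      have h3 := hu.2.2.resolve_left h1
      have h4 := hw.2.2.resolve_left h2
      omega
  simpa using h1

lemma not_mem_pred {h : ℕ} (v : Ver h) : v ∉ pred h v := by
  rw [mem_pred]
  omega

/-- the place `(i, j)` is occupied -/
def occ {h : ℕ} (W : Finset (Ver h)) (i j : ℕ) : Prop := ∃ v ∈ W, (v.1 : ℕ) = i ∧ (v.2 : ℕ) = j

/-- there is a path without pebbles from the bottom to `(i, j)` -/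
def openAt {h : ℕ} (W : Finset (Ver h)) : ℕ → ℕ → Prop
  | 0, j => ¬ occ W 0 j
  | i + 1, j => ¬ occ W (i + 1) j ∧ (openAt W i j ∨ openAt W i (j + 1))

lemma occ.mono {h : ℕ} {W W' : Finset (Ver h)} (hW : W ⊆ W') {i j : ℕ} (ho : occ W i j) :
    occ W' i j := by
  obtain ⟨v, hv, h1⟩ := ho
  exact ⟨v, hW hv, h1⟩

lemma openAt.mono {h : ℕ} {W W' : Finset (Ver h)} (hW : W ⊆ W') : ∀ {i j : ℕ}, openAt W' i j →
    openAt W i j
  | 0, _, ho => fun h1 => ho (h1.mono hW)
  | _ + 1, _, ho => ⟨fun h1 => ho.1 (h1.mono hW), ho.2.imp (openAt.mono hW) (openAt.mono hW)⟩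

lemma openAt_empty {h : ℕ} : ∀ i j : ℕ, openAt (∅ : Finset (Ver h)) i j
  | 0, _ => by
    rintro ⟨v, hv, -⟩
    simp at hv
  | i + 1, j => by
    refine ⟨?_, Or.inl (openAt_empty i j)⟩
    rintro ⟨v, hv, -⟩
    simp at hv

lemma openAt.not_occ {h : ℕ} {W : Finset (Ver h)} : ∀ {i j : ℕ}, openAt W i j → ¬ occ W i j
  | 0, _, ho => ho
  | _ + 1, _, ho => ho.1

/-- the right border of a blocked pyramid has a pebble -/
lemma diag_right {h : ℕ} {W : Finset (Ver h)} : ∀ {i j : ℕ}, ¬ openAt W i j →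
    ∃ v ∈ W, (v.1 : ℕ) ≤ i ∧ (v.1 : ℕ) + v.2 = i + j
  | 0, j, ho => by
    simp only [openAt, not_not] at ho
    obtain ⟨v, hv, h1, h2⟩ := ho
    exact ⟨v, hv, by omega, by omega⟩
  | i + 1, j, ho => by
    simp only [openAt, not_and_or, not_not, not_or] at ho
    rcases ho with ⟨v, hv, h1, h2⟩ | ⟨h1, h2⟩
    · exact ⟨v, hv, by omega, by omega⟩
    · obtain ⟨v, hv, h3, h4⟩ := diag_right h2
      exact ⟨v, hv, by omega, by omega⟩

/-- the left border of a blocked pyramid has a pebble -/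
lemma diag_left {h : ℕ} {W : Finset (Ver h)} : ∀ {i j : ℕ}, ¬ openAt W i j →
    ∃ v ∈ W, (v.1 : ℕ) ≤ i ∧ (v.2 : ℕ) = j
  | 0, j, ho => by
    simp only [openAt, not_not] at ho
    obtain ⟨v, hv, h1, h2⟩ := ho
    exact ⟨v, hv, by omega, by omega⟩
  | i + 1, j, ho => by
    simp only [openAt, not_and_or, not_not, not_or] at ho
    rcases ho with ⟨v, hv, h1, h2⟩ | ⟨h1, h2⟩
    · exact ⟨v, hv, by omega, by omega⟩
    · obtain ⟨v, hv, h3, h4⟩ := diag_left h1
      exact ⟨v, hv, by omega, by omega⟩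

/-- the vertices of the pyramid below `(i, j)` -/
def pyr {h : ℕ} (W : Finset (Ver h)) (i j : ℕ) : Finset (Ver h) :=
  W.filter fun v => (v.1 : ℕ) ≤ i ∧ j ≤ (v.2 : ℕ) ∧ (v.1 : ℕ) + v.2 ≤ i + j

/-- if a pebble at the bottom blocks the last paths, there are many pebbles -/
lemma blocked {h : ℕ} {W : Finset (Ver h)} {s : Ver h} (hs : (s.1 : ℕ) = 0) :
    ∀ {i j : ℕ}, openAt W i j → ¬ openAt (insert s W) i j → i + 1 ≤ (pyr (insert s W) i j).card
  | 0, j, h1, h2 => by
    simp only [openAt, not_not] at h1 h2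
    obtain ⟨v, hv, h3, h4⟩ := h2
    refine Finset.card_pos.mpr ⟨v, ?_⟩
    rw [pyr, Finset.mem_filter]
    exact ⟨hv, by omega, by omega, by omega⟩
  | i + 1, j, h1, h2 => by
    have h3 : ¬ occ (insert s W) (i + 1) j := by
      rintro ⟨v, hv, h4, h5⟩
      rcases Finset.mem_insert.mp hv with rfl | hv
      · omega
      · exact h1.1 ⟨v, hv, h4, h5⟩
    have h4 : ¬ openAt (insert s W) i j ∧ ¬ openAt (insert s W) i (j + 1) := by
      constructor
      · intro h5
        exact h2 ⟨h3, Or.inl h5⟩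
      · intro h5
        exact h2 ⟨h3, Or.inr h5⟩
    rcases h1.2 with h5 | h5
    · have ih := blocked hs h5 h4.1
      obtain ⟨v, hv, h6, h7⟩ := diag_right h4.2
      have hsub : insert v (pyr (insert s W) i j) ⊆ pyr (insert s W) (i + 1) j := by
        intro u hu
        rcases Finset.mem_insert.mp hu with rfl | hu
        · rw [pyr, Finset.mem_filter]
          exact ⟨hv, by omega, by omega, by omega⟩
        · rw [pyr, Finset.mem_filter] at hu ⊢
          exact ⟨hu.1, by omega, by omega, by omega⟩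
      have hv' : v ∉ pyr (insert s W) i j := by
        rw [pyr, Finset.mem_filter]
        rintro ⟨-, -, -, h8⟩
        omega
      have := Finset.card_le_card hsub
      rw [Finset.card_insert_of_notMem hv'] at this
      omega
    · have ih := blocked hs h5 h4.2
      obtain ⟨v, hv, h6, h7⟩ := diag_left h4.1
      have hsub : insert v (pyr (insert s W) i (j + 1)) ⊆ pyr (insert s W) (i + 1) j := by
        intro u hu
        rcases Finset.mem_insert.mp hu with rfl | hu
        · rw [pyr, Finset.mem_filter]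
          exact ⟨hv, by omega, by omega, by omega⟩
        · rw [pyr, Finset.mem_filter] at hu ⊢
          exact ⟨hu.1, by omega, by omega, by omega⟩
      have hv' : v ∉ pyr (insert s W) i (j + 1) := by
        rw [pyr, Finset.mem_filter]
        rintro ⟨-, -, h8, -⟩
        omega
      have := Finset.card_le_card hsub
      rw [Finset.card_insert_of_notMem hv'] at this
      omega

/-- a pebble on a vertex with pebbles on its predecessors blocks nothing -/
lemma openAt.insert {h : ℕ} {W : Finset (Ver h)} {s : Ver h} (hs : (s.1 : ℕ) ≠ 0)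
    (hp : pred h s ⊆ W) : ∀ {i j : ℕ}, i + j ≤ h → openAt W i j → openAt (insert s W) i j
  | 0, j, _, h1 => by
    rintro ⟨v, hv, h3, h4⟩
    rcases Finset.mem_insert.mp hv with rfl | hv
    · exact hs h3
    · exact h1 ⟨v, hv, h3, h4⟩
  | i + 1, j, hij, h1 => by
    refine ⟨?_, h1.2.imp (openAt.insert hs hp (by omega)) (openAt.insert hs hp (by omega))⟩
    rintro ⟨v, hv, h3, h4⟩
    rcases Finset.mem_insert.mp hv with rfl | hv
    · have h5 : occ W i j := by
        refine ⟨(⟨i, by omega⟩, ⟨j, by omega⟩), hp ?_, rfl, rfl⟩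
        rw [mem_pred]
        exact ⟨by omega, by simp only; omega, Or.inl (by simp only; omega)⟩
      have h6 : occ W i (j + 1) := by
        refine ⟨(⟨i, by omega⟩, ⟨j + 1, by omega⟩), hp ?_, rfl, rfl⟩
        rw [mem_pred]
        exact ⟨by omega, by simp only; omega, Or.inr (by simp only; omega)⟩
      rcases h1.2 with h7 | h7
      · exact h7.not_occ h5
      · exact h7.not_occ h6
    · exact h1.1 ⟨v, hv, h3, h4⟩

/-- the configurations that are reachable with fewer than `k` pebbles -/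
inductive Reach (h k : ℕ) : Finset (Ver h) → Prop
  | empty : Reach h k ∅
  | add {R : Finset (Ver h)} {v : Ver h} (hR : Reach h k R) (hv : v ∉ R) (hp : pred h v ⊆ R)
      (hk : (insert v R).card < k) : Reach h k (insert v R)
  | del {R : Finset (Ver h)} {v : Ver h} (hR : Reach h k (insert v R)) (hv : v ∉ R)
      (hp : pred h v ⊆ R) : Reach h k R

lemma Reach.openAt {h : ℕ} {R : Finset (Ver h)} (hR : Reach h (h + 1) R) :
    Pool.Agent.J4H24.NS.openAt R h 0 := by
  induction hR with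
  | empty => exact openAt_empty h 0
  | @add R v _ hv hp hk ih =>
    by_cases hv0 : (v.1 : ℕ) = 0
    · by_contra hcon
      have h1 := blocked hv0 ih hcon
      have h2 : (pyr (insert v R) h 0).card ≤ (insert v R).card :=
        Finset.card_le_card (Finset.filter_subset _ _)
      omega
    · exact ih.insert hv0 hp (by omega)
  | @del R v _ hv hp ih => exact ih.mono (Finset.subset_insert _ _)

/-- the apex of the pyramid -/
def apex (h : ℕ) : Ver h := (⟨h, by omega⟩, ⟨0, by omega⟩)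

lemma not_reach_apex {h : ℕ} {R : Finset (Ver h)} (hR : apex h ∈ R) : ¬ Reach h (h + 1) R := by
  intro h1
  exact h1.openAt.not_occ ⟨apex h, hR, rfl, rfl⟩

/-- the pebbling contradiction is unsatisfiable -/
lemma peb_unsat {h : ℕ} (w : Ver h → Bool) (ht : w (apex h) = true) :
    ∃ v, w v = true ∧ ∀ u ∈ pred h v, w u = false := by
  have hex : ∃ i : ℕ, ∃ v : Ver h, (v.1 : ℕ) = i ∧ w v = true := ⟨_, apex h, rfl, ht⟩
  obtain ⟨v, hv, hw⟩ := Nat.find_spec hex
  refine ⟨v, hw, fun u hu => ?_⟩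
  rw [mem_pred] at hu
  by_contra hne
  have h1 : w u = true := by simpa using hne
  have h2 : (u.1 : ℕ) < Nat.find hex := by omega
  exact Nat.find_min hex h2 ⟨u, rfl, h1⟩

end Pool.Agent.J4H24.NS
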