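import Pool.Agent.J4H24.NS.Rank
import Pool.Agent.J4H24.NS.Peb

/-!
# The rank gap of the lifted pebbling contradiction
-/

namespace Pool.Agent.J4H24.NS

open Finset

variable {h Q : ℕ} {K : Type*} [Field K]

/-- the gadget: the values are equal and not zero -/
def gad (K : Type*) [Field K] {Q : ℕ} (a b : Fin (Q + 1)) : K := if a = b ∧ a ≠ 0 then 1 else 0

open Classical in
/-- the coefficients of the polynomial -/
noncomputable def cf (K : Type*) [Field K] (h : ℕ) (S : Finset (Ver h)) : K :=
  if Reach h (h + 1) Sᶜ then (-1) ^ (Sᶜ).card else 0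

/-- the matrix -/
noncomputable def PM (K : Type*) [Field K] (h Q : ℕ) (x y : Ver h → Fin (Q + 1)) : K :=
  ∑ S : Finset (Ver h), cf K h S * ∏ v ∈ S, gad K (x v) (y v)

lemma cf_univ : cf K h univ = 1 := by
  unfold cf
  rw [Finset.compl_univ, if_pos Reach.empty]
  simp

lemma gad_zero (b : Fin (Q + 1)) : gad K 0 b = 0 := by
  unfold gad
  simp

lemma rk_gad (v : Ver h) :
    Rk Q (fun x y : Ver h → Fin (Q + 1) => gad K (x v) (y v)) := by
  have := Rk.of_fintype (ι := Fin Q) (f := fun x y : Ver h → Fin (Q + 1) => gad K (x v) (y v))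
    (fun i x => if x v = i.succ then (1 : K) else 0) (fun i y => if y v = i.succ then 1 else 0)
    (fun x y => by
      unfold gad
      by_cases hx : x v = 0
      · rw [if_neg (fun hc => hc.2 hx), Finset.sum_eq_zero]
        intro i _
        rw [if_neg (by rw [hx]; exact (Fin.succ_ne_zero i).symm), zero_mul]
      · obtain ⟨j, hj⟩ := Fin.exists_succ_eq.mpr hx
        rw [← hj]
        simp only [Fin.succ_inj, ite_mul, one_mul, zero_mul, Finset.sum_ite_eq, Finset.mem_univ,
          if_true, ne_eq, Fin.succ_ne_zero, not_false_eq_true, and_true]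
        by_cases h1 : j.succ = y v
        · simp [h1]
        · rw [if_neg h1, if_neg (Ne.symm h1)])
  rwa [Fintype.card_fin] at this

/-- zero out the coordinates of `T` -/
def zo (T : Finset (Ver h)) (x : Ver h → Fin (Q + 1)) (v : Ver h) : Fin (Q + 1) :=
  if v ∈ T then 0 else x v

lemma prod_zo (S T : Finset (Ver h)) (x y : Ver h → Fin (Q + 1)) :
    ∏ v ∈ S, gad K (zo T x v) (y v) = if T ⊆ Sᶜ then ∏ v ∈ S, gad K (x v) (y v) else 0 := by
  by_cases hT : T ⊆ Sᶜ
  · rw [if_pos hT]
    refine Finset.prod_congr rfl fun v hv => ?_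
    unfold zo
    rw [if_neg]
    intro hvT
    exact (Finset.mem_compl.mp (hT hvT)) hv
  · rw [if_neg hT]
    obtain ⟨v, hvT, hvS⟩ := Finset.not_subset.mp hT
    rw [Finset.mem_compl, not_not] at hvS
    refine Finset.prod_eq_zero hvS ?_
    unfold zo
    rw [if_pos hvT, gad_zero]

/-- differences in all coordinates leave the top coefficient only -/
lemma diff_PM (x y : Ver h → Fin (Q + 1)) :
    ∑ T : Finset (Ver h), (-1 : K) ^ T.card * PM K h Q (zo T x) y =
      ∏ v, gad K (x v) (y v) := by
  unfold PM
  simp_rw [Finset.mul_sum]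
  rw [Finset.sum_comm]
  have h1 : ∀ S : Finset (Ver h), ∑ T : Finset (Ver h),
      (-1 : K) ^ T.card * (cf K h S * ∏ v ∈ S, gad K (zo T x v) (y v)) =
      if S = univ then ∏ v, gad K (x v) (y v) else 0 := by
    intro S
    have h2 : ∀ T : Finset (Ver h), (-1 : K) ^ T.card *
        (cf K h S * ∏ v ∈ S, gad K (zo T x v) (y v)) =
        (cf K h S * ∏ v ∈ S, gad K (x v) (y v)) * (if T ∈ (Sᶜ).powerset then (-1 : K) ^ T.card
          else 0) := by
      intro T
      rw [prod_zo]
      by_cases hT : T ⊆ Sᶜ
      · rw [if_pos hT, if_pos (Finset.mem_powerset.mpr hT)]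
        ring
      · rw [if_neg hT, if_neg (fun hc => hT (Finset.mem_powerset.mp hc))]
        ring
    rw [Finset.sum_congr rfl fun T _ => h2 T, ← Finset.mul_sum, Finset.sum_ite_mem,
      Finset.univ_inter]
    have h3 : ∑ T ∈ (Sᶜ).powerset, (-1 : K) ^ T.card = if Sᶜ = ∅ then 1 else 0 := by
      have := Finset.sum_powerset_neg_one_pow_card (x := Sᶜ)
      have h4 := congrArg (Int.cast : ℤ → K) this
      push_cast at h4
      rw [h4]
    rw [h3]
    by_cases hS : S = univ
    · subst hS
      rw [cf_univ]
      simp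
    · rw [if_neg hS, if_neg, mul_zero]
      intro h4
      exact hS (Finset.compl_eq_empty_iff S |>.mp h4)
  rw [Finset.sum_congr rfl fun S _ => h1 S]
  simp

/-- the matrix has large rank -/
theorem low_PM {r : ℕ} (hr : Rk r (PM K h Q)) : Q ^ Fintype.card (Ver h) ≤ r := by
  classical
  obtain ⟨n, a, b, hn, hab⟩ := hr
  have h1 : Rk n (fun x y : Ver h → Fin Q => if x = y then (1 : K) else 0) := by
    refine ⟨n, fun i x => ∑ T : Finset (Ver h), (-1 : K) ^ T.card *
      a i (zo T fun v => (x v).succ), fun i y => b i fun v => (y v).succ, le_refl _,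
      fun x y => ?_⟩
    have h2 := diff_PM (K := K) (h := h) (Q := Q) (fun v => (x v).succ) (fun v => (y v).succ)
    have h3 : ∏ v, gad K (x v).succ (y v).succ = if x = y then (1 : K) else 0 := by
      unfold gad
      simp only [Fin.succ_inj, ne_eq, Fin.succ_ne_zero, not_false_eq_true, and_true]
      by_cases hxy : x = y
      · rw [if_pos hxy, hxy]
        simp
      · rw [if_neg hxy]
        obtain ⟨v, hv⟩ := Function.ne_iff.mp hxy
        exact Finset.prod_eq_zero (mem_univ v) (if_neg hv)
    show (if x = y then (1 : K) else 0) = _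
    rw [← h3, ← h2]
    simp_rw [Finset.sum_mul]
    rw [Finset.sum_comm]
    refine Finset.sum_congr rfl fun T _ => ?_
    rw [hab, Finset.mul_sum]
    refine Finset.sum_congr rfl fun i _ => by ring
  have h2 := h1.card_le
  rw [Fintype.card_fun, Fintype.card_fin] at h2
  exact h2.trans hn

/-- the number of products for the polynomials of small degree -/
def low (h Q : ℕ) : ℕ :=
  ∑ S ∈ (univ : Finset (Finset (Ver h))).filter (fun S => h + 1 ≤ (Sᶜ).card), Q ^ S.card

/-- a polynomial of small degree has small rank -/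
lemma rk_low (c : Finset (Ver h) → K) : Rk (low h Q) (fun x y : Ver h → Fin (Q + 1) =>
    ∑ S ∈ (univ : Finset (Finset (Ver h))).filter (fun S => h + 1 ≤ (Sᶜ).card),
      c S * ∏ v ∈ S, gad K (x v) (y v)) := by
  unfold low
  refine Rk.sum _ fun S _ => ?_
  exact (Rk.prod S fun v _ => rk_gad v).smul (c S)

/-- on the assignments with a false vertex whose predecessors are true, the matrix agrees with one
of small rank -/
lemma PM_vertex (v : Ver h) : ∃ f : (Ver h → Fin (Q + 1)) → (Ver h → Fin (Q + 1)) → K,
    Rk (low h Q) f ∧ ∀ x y, gad K (x v) (y v) = 1 → (∀ u ∈ pred h v, gad K (x u) (y u) = 0) →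
      PM K h Q x y = f x y := by
  classical
  refine ⟨_, rk_low (fun S => if v ∉ S ∧ Disjoint S (pred h v) then
    cf K h S + cf K h (insert v S) else 0), fun x y hv hp => ?_⟩
  -- split according to membership of `v`
  have h1 : PM K h Q x y = ∑ S ∈ (univ : Finset (Finset (Ver h))).filter (fun S => v ∉ S),
      (cf K h S + cf K h (insert v S)) * ∏ u ∈ S, gad K (x u) (y u) := by
    unfold PM
    rw [← Finset.sum_filter_add_sum_filter_not univ (fun S : Finset (Ver h) => v ∉ S)]
    simp_rw [add_mul]
    rw [Finset.sum_add_distrib]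
    congr 1
    refine (Finset.sum_bij (fun (S : Finset (Ver h)) _ => insert v S) ?_ ?_ ?_ ?_).symm
    · intro S hS
      simp
    · intro S hS S' hS' heq
      simp only [Finset.mem_filter, Finset.mem_univ, true_and] at hS hS'
      rw [← Finset.erase_insert hS, ← Finset.erase_insert hS', heq]
    · intro S hS
      simp only [Finset.mem_filter, Finset.mem_univ, true_and, not_not] at hS
      refine ⟨S.erase v, ?_, Finset.insert_erase hS⟩
      simp
    · intro S hS
      simp only [Finset.mem_filter, Finset.mem_univ, true_and] at hS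
      rw [Finset.prod_insert hS, hv, one_mul]
  rw [h1, Finset.sum_filter, Finset.sum_filter]
  refine Finset.sum_congr rfl fun S _ => ?_
  by_cases hvS : v ∈ S
  · rw [if_neg (by simpa using hvS)]
    split_ifs with h2 h3
    · exact absurd hvS h3.1
    · rw [zero_mul]
    · rfl
  · rw [if_pos hvS]
    by_cases hd : Disjoint S (pred h v)
    · by_cases hc : h + 1 ≤ (Sᶜ).card
      · rw [if_pos hc, if_pos ⟨hvS, hd⟩]
      · rw [if_neg hc]
        -- the coefficients cancel
        have h2 : (insert v S)ᶜ = (Sᶜ).erase v := by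
          ext u
          simp only [Finset.mem_compl, Finset.mem_insert, Finset.mem_erase, not_or]
        have h3 : insert v ((Sᶜ).erase v) = Sᶜ :=
          Finset.insert_erase (Finset.mem_compl.mpr hvS)
        have h4 : pred h v ⊆ (Sᶜ).erase v := by
          intro u hu
          rw [Finset.mem_erase, Finset.mem_compl]
          refine ⟨?_, fun huS => (Finset.disjoint_left.mp hd) huS hu⟩
          rintro rfl
          exact not_mem_pred _ hu
        have h5 : Reach h (h + 1) Sᶜ ↔ Reach h (h + 1) ((Sᶜ).erase v) := by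
          constructor
          · intro hR
            rw [← h3] at hR
            exact hR.del (Finset.notMem_erase _ _) h4
          · intro hR
            have := hR.add (Finset.notMem_erase _ _) h4 (by rw [h3]; omega)
            rwa [h3] at this
        have h6 : (Sᶜ).card = ((Sᶜ).erase v).card + 1 := by
          rw [Finset.card_erase_of_mem (Finset.mem_compl.mpr hvS)]
          have : 0 < (Sᶜ).card := Finset.card_pos.mpr ⟨v, Finset.mem_compl.mpr hvS⟩
          omega
        have h7 : cf K h S + cf K h (insert v S) = 0 := by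
          unfold cf
          rw [h2]
          by_cases hR : Reach h (h + 1) Sᶜ
          · rw [if_pos hR, if_pos (h5.mp hR), h6, pow_succ]
            ring
          · rw [if_neg hR, if_neg (fun hc => hR (h5.mpr hc)), add_zero]
        rw [h7, zero_mul]
    · obtain ⟨u, huS, hup⟩ := Finset.not_disjoint_iff.mp hd
      rw [Finset.prod_eq_zero huS (hp u hup)]
      simp

/-- on the assignments with a true apex, the matrix vanishes -/
lemma PM_apex (x y : Ver h → Fin (Q + 1)) (ht : gad K (x (apex h)) (y (apex h)) = 0) :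
    PM K h Q x y = 0 := by
  unfold PM
  refine Finset.sum_eq_zero fun S _ => ?_
  by_cases hS : apex h ∈ S
  · rw [Finset.prod_eq_zero hS ht, mul_zero]
  · have : cf K h S = 0 := by
      unfold cf
      rw [if_neg]
      exact not_reach_apex (Finset.mem_compl.mpr hS)
    rw [this, zero_mul]

/-- the count -/
lemma low_le (h : ℕ) : 2 ^ (h + 1) * low h (2 * Fintype.card (Ver h)) ≤
    3 * (2 * Fintype.card (Ver h)) ^ Fintype.card (Ver h) := by
  set n := Fintype.card (Ver h) with hn
  have hn1 : 1 ≤ n := Fintype.card_pos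
  have h1 : 2 ^ (h + 1) * low h (2 * n) ≤ (2 * n + 2) ^ n := by
    have h2 : ∑ S : Finset (Ver h), (2 * n) ^ S.card * 2 ^ (n - S.card) = (2 * n + 2) ^ n :=
      Fintype.sum_pow_mul_eq_add_pow (Ver h) (2 * n) 2
    rw [← h2]
    unfold low
    rw [Finset.mul_sum, Finset.sum_filter]
    refine Finset.sum_le_sum fun S _ => ?_
    split_ifs with hS
    · rw [mul_comm]
      refine Nat.mul_le_mul_left _ (Nat.pow_le_pow_right (by norm_num) ?_)
      rwa [Finset.card_compl, ← hn] at hS
    · exact Nat.zero_le _
  refine h1.trans ?_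
  have h3 : ((2 * n + 2 : ℕ) : ℝ) ^ n ≤ 3 * ((2 * n : ℕ) : ℝ) ^ n := by
    have hnR : (0 : ℝ) < n := by exact_mod_cast hn1
    have h4 : ((2 * n + 2 : ℕ) : ℝ) = ((2 * n : ℕ) : ℝ) * (1 + 1 / n) := by
      push_cast
      field_simp
    rw [h4, mul_pow, mul_comm]
    refine mul_le_mul_of_nonneg_right ?_ (by positivity)
    calc (1 + 1 / (n : ℝ)) ^ n ≤ (Real.exp (1 / n)) ^ n := by
          refine pow_le_pow_left₀ (by positivity) ?_ _
          linarith [Real.add_one_le_exp (1 / (n : ℝ))]
      _ = Real.exp 1 := by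
          rw [← Real.exp_nat_mul]
          congr 1
          field_simp
      _ ≤ 3 := Real.exp_one_lt_three.le
  exact_mod_cast h3

/-- The core inequality: if the constant one is a sum of functions of small rank that are supported
on rectangles of assignments that violate an axiom of the pebbling contradiction, then the sum of the
ranks is large. -/
theorem core (hQ : Q = 2 * Fintype.card (Ver h)) {ι : Type*} (I : Finset ι)
    (A B : ι → (Ver h → Fin (Q + 1)) → K)
    (G : ι → (Ver h → Fin (Q + 1)) → (Ver h → Fin (Q + 1)) → K) (r : ℕ)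
    (hG : ∀ i ∈ I, Rk r (G i))
    (hax : ∀ i ∈ I, (∀ x y, A i x * B i y ≠ 0 → gad K (x (apex h)) (y (apex h)) = 0) ∨
      ∃ v, ∀ x y, A i x * B i y ≠ 0 → gad K (x v) (y v) = 1 ∧
        ∀ u ∈ pred h v, gad K (x u) (y u) = 0)
    (hsum : ∀ x y, ∑ i ∈ I, A i x * B i y * G i x y = 1) :
    2 ^ (h + 1) ≤ 3 * (I.card * r) := by
  classical
  have h1 : ∀ i ∈ I, Rk (r * low h Q) (fun x y => A i x * B i y * G i x y * PM K h Q x y) := by
    intro i hi
    rcases hax i hi with h0 | ⟨v, hv⟩
    · refine (Rk.zero.mono (Nat.zero_le _)).congr fun x y => ?_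
      by_cases hne : A i x * B i y = 0
      · rw [hne]
        ring
      · rw [PM_apex x y (h0 x y hne)]
        ring
    · obtain ⟨f, hf, hf2⟩ := PM_vertex (K := K) (Q := Q) v
      have h2 := ((Rk.left (A i)).mul (Rk.right (B i))).mul ((hG i hi).mul hf)
      rw [one_mul, one_mul] at h2
      refine h2.congr fun x y => ?_
      by_cases hne : A i x * B i y = 0
      · rw [hne]
        ring
      · obtain ⟨h3, h4⟩ := hv x y hne
        rw [hf2 x y h3 h4]
        ring
  have h2 := Rk.sum I h1
  have h3 : Rk (∑ _i ∈ I, r * low h Q) (PM K h Q) := by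
    refine h2.congr fun x y => ?_
    rw [← Finset.sum_mul, hsum, one_mul]
  have h4 := low_PM h3
  rw [Finset.sum_const, smul_eq_mul] at h4
  have h5 := low_le h
  rw [← hQ] at h5
  have hpos : 0 < Q ^ Fintype.card (Ver h) := by
    refine pow_pos ?_ _
    rw [hQ]
    have : 0 < Fintype.card (Ver h) := Fintype.card_pos
    omega
  refine Nat.le_of_mul_le_mul_right ?_ hpos
  calc 2 ^ (h + 1) * Q ^ Fintype.card (Ver h) ≤ 2 ^ (h + 1) * (I.card * (r * low h Q)) :=
        Nat.mul_le_mul_left _ h4
    _ = (I.card * r) * (2 ^ (h + 1) * low h Q) := by ring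
    _ ≤ (I.card * r) * (3 * Q ^ Fintype.card (Ver h)) := Nat.mul_le_mul_left _ h5
    _ = 3 * (I.card * r) * Q ^ Fintype.card (Ver h) := by ring

end Pool.Agent.J4H24.NS
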